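import Mathlib
import Pool.Agent.Helper72.FitAlt

set_option autoImplicit false

namespace Pool.Agent.Helper72.Fit

open Equiv Cardinal
open scoped commutatorElement

/-- The closure conditions of a Fitting class. -/
def Closed (F : (H : Type) → Group H → Prop) : Prop :=
  (∀ (H K : Type) (iH : Group H) (iK : Group K), Nonempty (H ≃* K) → F H iH → F K iK) ∧
  (∀ (H : Type) (iH : Group H) (N : Subgroup H), N.Normal → F H iH → F (↥N) inferInstance) ∧
  (∀ (H : Type) (iH : Group H) (N M : Subgroup H), N.Normal → M.Normal →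
    F (↥N) inferInstance → F (↥M) inferInstance → F (↥(N ⊔ M)) inferInstance)

theorem FC_closed (κ : Cardinal.{0}) (hκ : ℵ₀ ≤ κ) : Closed (FC κ) :=
  ⟨FC_iso κ, FC_normal κ, FC_sup κ hκ⟩

theorem Closed.inf {F F' : (H : Type) → Group H → Prop} (h : Closed F) (h' : Closed F') :
    Closed (fun H iH => F H iH ∧ F' H iH) := by
  refine ⟨?_, ?_, ?_⟩
  · intro H K iH iK e hF
    exact ⟨h.1 H K iH iK e hF.1, h'.1 H K iH iK e hF.2⟩
  · intro H iH N hN hF
    exact ⟨h.2.1 H iH N hN hF.1, h'.2.1 H iH N hN hF.2⟩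
  · intro H iH N M hN hM hF hF'
    exact ⟨h.2.2 H iH N M hN hM hF.1 hF'.1, h'.2.2 H iH N M hN hM hF.2 hF'.2⟩

/-- The Fitting class generated by a group. -/
def Gen (G : Type) (iG : Group G) (K : Type) (iK : Group K) : Prop :=
  ∀ E : (H : Type) → Group H → Prop, Closed E → E G iG → E K iK

theorem Gen_closed (G : Type) (iG : Group G) : Closed (Gen G iG) := by
  refine ⟨?_, ?_, ?_⟩
  · intro H K iH iK e hF E hE hG
    exact hE.1 H K iH iK e (hF E hE hG)
  · intro H iH N hN hF E hE hG
    exact hE.2.1 H iH N hN (hF E hE hG)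
  · intro H iH N M hN hM hF hF' E hE hG
    exact hE.2.2 H iH N M hN hM (hF E hE hG) (hF' E hE hG)

section rel

variable {P : Type} [Group P] {E : (H : Type) → Group H → Prop}

theorem Closed.normal_rel (hE : Closed E) {N M : Subgroup P} (hNM : N ≤ M)
    (hn : ∀ m ∈ M, ∀ l ∈ N, m * l * m⁻¹ ∈ N) (h : E (↥M) inferInstance) :
    E (↥N) inferInstance := by
  have hN : (N.subgroupOf M).Normal := by
    constructor
    intro l hl m
    rw [Subgroup.mem_subgroupOf] at hl ⊢
    exact hn m m.2 l hl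
  have := hE.2.1 (↥M) inferInstance (N.subgroupOf M) hN h
  exact hE.1 _ _ _ _ ⟨Subgroup.subgroupOfEquivOfLe hNM⟩ this

theorem Closed.sup_rel (hE : Closed E) {N M : Subgroup P}
    (hn : ∀ m ∈ N ⊔ M, ∀ l ∈ N, m * l * m⁻¹ ∈ N) (hm : ∀ m ∈ N ⊔ M, ∀ l ∈ M, m * l * m⁻¹ ∈ M)
    (h : E (↥N) inferInstance) (h' : E (↥M) inferInstance) :
    E (↥(N ⊔ M)) inferInstance := by
  have hN : (N.subgroupOf (N ⊔ M)).Normal := by
    constructor
    intro l hl m
    rw [Subgroup.mem_subgroupOf] at hl ⊢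
    exact hn m m.2 l hl
  have hM : (M.subgroupOf (N ⊔ M)).Normal := by
    constructor
    intro l hl m
    rw [Subgroup.mem_subgroupOf] at hl ⊢
    exact hm m m.2 l hl
  have h1 : E (↥(N.subgroupOf (N ⊔ M))) inferInstance :=
    hE.1 _ _ _ _ ⟨(Subgroup.subgroupOfEquivOfLe le_sup_left).symm⟩ h
  have h2 : E (↥(M.subgroupOf (N ⊔ M))) inferInstance :=
    hE.1 _ _ _ _ ⟨(Subgroup.subgroupOfEquivOfLe le_sup_right).symm⟩ h'
  have h3 := hE.2.2 _ _ _ _ hN hM h1 h2
  rw [← Subgroup.subgroupOf_sup le_sup_left le_sup_right] at h3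
  exact hE.1 _ _ _ _ ⟨Subgroup.subgroupOfEquivOfLe le_rfl⟩ h3

theorem Closed.conj_rel (hE : Closed E) {N : Subgroup P} (x : P)
    (h : E (↥N) inferInstance) :
    E (↥(N.map (MulAut.conj x).toMonoidHom)) inferInstance :=
  hE.1 _ _ _ _ ⟨N.equivMapOfInjective _ (MulAut.conj x).injective⟩ h

end rel

section small

variable {Ω : Type} [DecidableEq Ω] [Infinite Ω]

theorem small_of_supp {κ : Cardinal.{0}} (hκ : ℵ₀ ≤ κ) (x : Perm Ω)
    (hs : #{y | x y ≠ y} ≤ κ) : Small κ (Alt Ω) x := by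
  choose f hf f' hf' _ hp using (pin : ∀ t : Ω, _)
  refine ⟨f '' {y | x y ≠ y} ∪ f' '' {y | x y ≠ y}, ?_, ?_, ?_⟩
  · rintro _ (⟨y, _, rfl⟩ | ⟨y, _, rfl⟩)
    · exact hf y
    · exact hf' y
  · calc #(f '' {y | x y ≠ y} ∪ f' '' {y | x y ≠ y} : Set (Perm Ω))
        ≤ #(f '' {y | x y ≠ y}) + #(f' '' {y | x y ≠ y}) := mk_union_le _ _
      _ ≤ #{y | x y ≠ y} + #{y | x y ≠ y} := add_le_add mk_image_le mk_image_le
      _ ≤ κ + κ := add_le_add hs hs
      _ = κ := add_eq_self hκ
  · intro z _ hz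
    have hfix : ∀ t, x t ≠ t → z t = t := by
      intro t ht
      exact hp t z (hz _ (Or.inl ⟨t, ht, rfl⟩)) (hz _ (Or.inr ⟨t, ht, rfl⟩))
    ext y
    rw [Perm.mul_apply, Perm.mul_apply]
    by_cases hy : x y = y
    · rw [hy]
      by_contra hne
      have h1 : z (z y) = z y := hfix (z y) (fun h => hne h.symm)
      have h2 : z y = y := z.injective h1
      rw [h2, hy] at hne
      exact hne rfl
    · rw [hfix y hy]
      apply hfix
      intro h
      exact hy (x.injective h)

theorem small_of_mem_Alt {κ : Cardinal.{0}} (hκ : ℵ₀ ≤ κ) {x : Perm Ω} (hx : x ∈ Alt Ω) :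
    Small κ (Alt Ω) x := by
  apply small_of_supp hκ
  exact ((Alt_finite_support hx).lt_aleph0).le.trans hκ

/-- the group `Alt Ω` extended by one permutation -/
def Ext (g : Perm Ω) : Subgroup (Perm Ω) := Alt Ω ⊔ Subgroup.zpowers g

theorem mem_Ext {g : Perm Ω} (hg : g * g = 1) {x : Perm Ω} (hx : x ∈ Ext g) :
    x ∈ Alt Ω ∨ ∃ a ∈ Alt Ω, x = a * g := by
  have : x ∈ ((Alt Ω ⊔ Subgroup.zpowers g : Subgroup (Perm Ω)) : Set (Perm Ω)) := hx
  rw [Subgroup.normal_mul] at this
  obtain ⟨a, ha, b, hb, rfl⟩ := this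
  obtain ⟨k, rfl⟩ := Subgroup.mem_zpowers_iff.mp hb
  rcases Int.even_or_odd' k with ⟨c, rfl | rfl⟩
  · left
    have : g ^ (2 * c) = 1 := by rw [zpow_mul, zpow_ofNat, pow_two, hg, one_zpow]
    simpa [this] using ha
  · right
    refine ⟨a, ha, ?_⟩
    have : g ^ (2 * c + 1) = g := by
      rw [zpow_add, zpow_mul, zpow_ofNat, pow_two, hg, one_zpow, one_mul, zpow_one]
    simp [this]

theorem SN_Alt_Ext (g : Perm Ω) : SN (Alt Ω) (Ext g) :=
  SN.step _ _ SN.refl le_sup_left (fun m _ _ hl => Alt_conj m hl)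

theorem g_mem_Ext (g : Perm Ω) : g ∈ Ext g :=
  (le_sup_right : Subgroup.zpowers g ≤ _) (Subgroup.mem_zpowers g)

theorem FR_Ext {κ : Cardinal.{0}} (hκ : ℵ₀ ≤ κ) {g : Perm Ω} (hg : g * g = 1)
    (hs : Small κ (Alt Ω) g) : FR κ (Ext g) := by
  intro K hK hsimple hc x hx
  have hKA : K = Alt Ω := by
    rcases component hK hsimple hc (Alt_normal (Ω := Ω)) with h | h
    · have h1 := hK.inf h
      have h2 : Ext g ⊓ Alt Ω = Alt Ω := inf_of_le_right le_sup_left
      rw [h2] at h1
      apply h1.eq_of_simple Alt_simple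
      rintro rfl
      obtain ⟨a, ha, b, hb, hab⟩ := hc
      rw [Subgroup.mem_bot] at ha
      rw [ha] at hab
      simp at hab
    · exfalso
      obtain ⟨a, ha, b, hb, hab⟩ := hc
      have : a = 1 := centralizer_Alt a
        (fun k hk => (h k hk ((le_sup_left : Alt Ω ≤ _) hk) a ha).symm)
      rw [this] at hab
      simp at hab
  subst hKA
  rcases mem_Ext hg hx with h | ⟨a, ha, rfl⟩
  · exact small_of_mem_Alt hκ h
  · exact (small_of_mem_Alt hκ ha).mul hκ hs

end small

/-- The cardinals `ℵ_n`. -/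
noncomputable def kap (n : ℕ) : Cardinal.{0} := Cardinal.aleph (n : Ordinal)

theorem aleph0_le_kap (n : ℕ) : ℵ₀ ≤ kap n := Cardinal.aleph0_le_aleph _

theorem kap_lt {n m : ℕ} (h : n < m) : kap n < kap m := by
  unfold kap
  rw [Cardinal.aleph_lt_aleph]
  exact_mod_cast h

/-- a type of cardinality `ℵ_n` -/
def T (n : ℕ) : Type := (kap n).out

theorem mk_T (n : ℕ) : #(T n) = kap n := Cardinal.mk_out _

/-- index type -/
abbrev B : Type := Σ n : ℕ, T n

/-- The underlying set. -/
abbrev Om : Type := B × Bool × Bool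

noncomputable instance : DecidableEq Om := Classical.decEq _

instance (n : ℕ) : Infinite (T n) := by
  rw [Cardinal.infinite_iff, mk_T]
  exact aleph0_le_kap n

instance : Infinite B := by
  apply Infinite.of_injective (fun x : T 0 => (⟨0, x⟩ : B))
  intro x y h
  simpa using h

instance : Infinite Om := by
  apply Infinite.of_injective (fun x : B => ((x, false, false) : Om))
  intro x y h
  exact congrArg Prod.fst h

open Classical in
/-- flip the first Boolean over the set `S` -/
noncomputable def flipFun (S : Set (B × Bool)) (x : Om) : Om :=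
  if (x.1, x.2.2) ∈ S then (x.1, !x.2.1, x.2.2) else x

theorem flipFun_invol (S : Set (B × Bool)) : Function.Involutive (flipFun S) := by
  rintro ⟨b, i, j⟩
  unfold flipFun
  by_cases h : (b, j) ∈ S <;> simp [h]

/-- the permutation `flip` -/
noncomputable def flip (S : Set (B × Bool)) : Perm Om := (flipFun_invol S).toPerm

theorem flip_apply (S : Set (B × Bool)) (x : Om) : flip S x = flipFun S x := rfl

theorem flip_mul_self (S : Set (B × Bool)) : flip S * flip S = 1 := by
  apply Equiv.ext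
  intro x
  rw [Perm.mul_apply, flip_apply, flip_apply, flipFun_invol]
  rfl

theorem flip_comm (S T : Set (B × Bool)) : flip S * flip T = flip T * flip S := by
  apply Equiv.ext
  rintro ⟨b, i, j⟩
  rw [Perm.mul_apply, Perm.mul_apply]
  simp only [flip_apply, flipFun]
  by_cases h : (b, j) ∈ S <;> by_cases h' : (b, j) ∈ T <;> simp [h, h']

/-- the three families of sets -/
def Sg : Set (B × Bool) := {x | x.2 = false}
def Sg' (n : ℕ) : Set (B × Bool) := {x | (x.1.1 = n ∧ x.2 = true) ∨ (x.1.1 ≠ n ∧ x.2 = false)}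
def Sh (n : ℕ) : Set (B × Bool) := {x | x.1.1 = n}

theorem flip_Sh (n : ℕ) : flip (Sh n) = flip Sg * flip (Sg' n) := by
  apply Equiv.ext
  rintro ⟨b, i, j⟩
  rw [Perm.mul_apply]
  simp only [flip_apply, flipFun, Sh, Sg, Sg', Set.mem_ofPred_eq]
  by_cases h : b.1 = n <;> cases j <;> simp [h]

open Classical in
/-- the conjugating map -/
noncomputable def piFun (n : ℕ) (x : Om) : Om :=
  if x.1.1 = n then (x.1, x.2.1, !x.2.2) else x

theorem piFun_invol (n : ℕ) : Function.Involutive (piFun n) := by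
  rintro ⟨b, i, j⟩
  unfold piFun
  by_cases h : b.1 = n <;> simp [h]

/-- the conjugating permutation -/
noncomputable def pi (n : ℕ) : Perm Om := (piFun_invol n).toPerm

theorem pi_conj (n : ℕ) : pi n * flip Sg * (pi n)⁻¹ = flip (Sg' n) := by
  rw [mul_inv_eq_iff_eq_mul]
  apply Equiv.ext
  rintro ⟨b, i, j⟩
  rw [Perm.mul_apply, Perm.mul_apply]
  have hp : ∀ x, pi n x = piFun n x := fun _ => rfl
  simp only [hp, flip_apply, flipFun, Sg, Sg', Set.mem_ofPred_eq, piFun]
  by_cases h : b.1 = n <;> cases j <;> simp [h]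

/-- Support bound. -/
theorem mk_supp_flip (n : ℕ) : #{y | flip (Sh n) y ≠ y} ≤ kap n := by
  have h1 : {y | flip (Sh n) y ≠ y} ⊆
      Set.range (fun x : T n × Bool × Bool => (((⟨n, x.1⟩ : B), x.2.1, x.2.2) : Om)) := by
    rintro ⟨⟨m, c⟩, i, j⟩ hy
    have hm : m = n := by
      by_contra hne
      apply hy
      simp only [flip_apply, flipFun, Sh, Set.mem_ofPred_eq]
      rw [if_neg hne]
    subst hm
    exact ⟨(c, i, j), rfl⟩
  calc #{y | flip (Sh n) y ≠ y} ≤ _ := mk_le_mk_of_subset h1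
    _ ≤ #(T n × Bool × Bool) := mk_range_le
    _ = kap n * (#Bool * #Bool) := by
      simp only [mk_prod, lift_id, mk_T]
    _ ≤ kap n * kap n := by
      apply mul_le_mul_right
      rw [mk_bool]
      refine le_trans ?_ (aleph0_le_kap n)
      exact (mul_lt_aleph0 (nat_lt_aleph0 2) (nat_lt_aleph0 2)).le
    _ = kap n := mul_eq_self (aleph0_le_kap n)

theorem commute_swap {Ω : Type} [DecidableEq Ω] (f : Perm Ω) {u v : Ω} (hu : f u = u)
    (hv : f v = v) : swap u v * f = f * swap u v := by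
  have := Equiv.swap_apply_apply f u v
  rw [hu, hv] at this
  rw [eq_mul_inv_iff_mul_eq] at this
  exact this

theorem not_small {n m : ℕ} (h : n < m) : ¬ Small (kap n) (Alt Om) (flip (Sh m)) := by
  rintro ⟨F, hF, hcard, hx⟩
  -- the union of the supports
  set U : Set Om := ⋃ f ∈ F, {y | f y ≠ y} with hU
  have hUc : #U ≤ kap n := by
    rw [hU]
    calc #(⋃ f ∈ F, {y : Om | f y ≠ y} : Set Om) ≤ #F * ⨆ f : F, #{y : Om | f.1 y ≠ y} :=
          mk_biUnion_le _ _
      _ ≤ kap n * ℵ₀ := by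
          apply mul_le_mul' hcard
          apply ciSup_le'
          intro f
          exact (Alt_finite_support (hF f.2)).lt_aleph0.le
      _ ≤ kap n * kap n := mul_le_mul_right (aleph0_le_kap n) _
      _ = kap n := mul_eq_self (aleph0_le_kap n)
  -- indices whose fibre meets U
  set V : Set (T m) := {c | ∃ i j : Bool, (((⟨m, c⟩ : B), i, j) : Om) ∈ U} with hV
  have hVc : #V ≤ kap n := by
    refine le_trans ?_ hUc
    choose i j hij using (fun c : V => c.2)
    apply mk_le_of_injective (f := fun c : V => (⟨_, hij c⟩ : U))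
    intro c c' hcc
    have h1 := congrArg (fun z : U => (z : Om).1) hcc
    simp only at h1
    have h2 : c.1 = c'.1 := by
      simpa using h1
    exact Subtype.ext h2
  have hVcompl : #(Vᶜ : Set (T m)) = kap m := by
    have := mk_compl_of_infinite V (by
      rw [mk_T]; exact hVc.trans_lt (kap_lt h))
    rw [this, mk_T]
  have hnt : (Vᶜ : Set (T m)).Nontrivial := by
    by_contra hcon
    rw [Set.not_nontrivial_iff] at hcon
    have h1 : #(Vᶜ : Set (T m)) ≤ 1 := by
      rw [le_one_iff_subsingleton]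
      exact Set.subsingleton_coe _ |>.mpr hcon
    rw [hVcompl] at h1
    exact absurd (lt_of_lt_of_le one_lt_aleph0 (aleph0_le_kap m)) (not_lt.mpr h1)
  obtain ⟨c, hc, c', hc', hne⟩ := hnt
  have hfix : ∀ f ∈ F, ∀ d, d ∉ V → ∀ i j, f (((⟨m, d⟩ : B), i, j) : Om) = ((⟨m, d⟩ : B), i, j) := by
    intro f hf d hd i j
    by_contra hcon
    apply hd
    refine ⟨i, j, ?_⟩
    rw [hU]
    exact Set.mem_biUnion hf hcon
  set u : Om := ((⟨m, c⟩ : B), false, false) with hu
  set u' : Om := ((⟨m, c'⟩ : B), false, false) with hu'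
  set v : Om := ((⟨m, c⟩ : B), false, true) with hv
  set v' : Om := ((⟨m, c'⟩ : B), false, true) with hv'
  have hBne : (⟨m, c⟩ : B) ≠ ⟨m, c'⟩ := by
    intro h
    apply hne
    simpa using h
  have huu' : u ≠ u' := fun h => hBne (congrArg Prod.fst h)
  have hvv' : v ≠ v' := fun h => hBne (congrArg Prod.fst h)
  have huv : u ≠ v := by
    intro h
    have := congrArg (fun z : Om => z.2.2) h
    simp [hu, hv] at this
  have huv' : u ≠ v' := by
    intro h
    have := congrArg (fun z : Om => z.2.2) h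
    simp [hu, hv'] at this
  have hmem : swap u u' * swap v v' ∈ Alt Om := swap_mul_swap_mem huu' hvv'
  have hcomm := hx _ hmem (by
    intro f hf
    have h1 := commute_swap f (hfix f hf c hc false false) (hfix f hf c' hc' false false)
    have h2 := commute_swap f (hfix f hf c hc false true) (hfix f hf c' hc' false true)
    rw [mul_assoc, h2, ← mul_assoc, h1, mul_assoc])
  have hev := congrArg (fun σ : Perm Om => σ u) hcomm
  simp only [Perm.mul_apply] at hev
  -- left: swap (flip u); right: flip (swap u)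
  have hflu : flip (Sh m) u = ((⟨m, c⟩ : B), true, false) := by
    simp [flip_apply, flipFun, Sh, hu]
  have hflu' : flip (Sh m) u' = ((⟨m, c'⟩ : B), true, false) := by
    simp [flip_apply, flipFun, Sh, hu']
  have hs1 : (swap v v') u = u := swap_apply_of_ne_of_ne huv huv'
  rw [hs1, swap_apply_left, hflu, hflu'] at hev
  have hw : ∀ z : Om, z.2.1 = false → (((⟨m, c⟩ : B), true, false) : Om) ≠ z := by
    intro z hz h
    have := congrArg (fun z : Om => z.2.1) h
    simp [hz] at this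
  have hs2 : (swap v v') (((⟨m, c⟩ : B), true, false) : Om) = ((⟨m, c⟩ : B), true, false) :=
    swap_apply_of_ne_of_ne (hw v rfl) (hw v' rfl)
  have hs3 : (swap u u') (((⟨m, c⟩ : B), true, false) : Om) = ((⟨m, c⟩ : B), true, false) :=
    swap_apply_of_ne_of_ne (hw u rfl) (hw u' rfl)
  rw [hs2, hs3] at hev
  exact hBne (congrArg Prod.fst hev)

end Pool.Agent.Helper72.Fit
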