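import Mathlib
import Pool.Agent.Helper72.FitMain

set_option autoImplicit false

namespace Pool.Agent.Helper72.Fit

open Equiv Cardinal
open scoped commutatorElement

/-- The group `G`. -/
noncomputable def G0 : Subgroup (Perm Om) := Ext (flip Sg)

theorem flip_Sg_notMem : flip Sg ∉ Alt Om := by
  intro h
  have hfin := Alt_finite_support h
  have : Set.Infinite {x : Om | flip Sg x ≠ x} := by
    apply Set.infinite_of_injective_forall_mem (f := fun b : B => ((b, false, false) : Om))
    · intro x y h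
      exact congrArg Prod.fst h
    · intro b
      simp [flip_apply, flipFun, Sg]
  exact this hfin

theorem comp_series :
    ∃ (n : ℕ) (s : Fin (n + 1) → Subgroup ↥G0), s 0 = ⊥ ∧ s (Fin.last n) = ⊤ ∧
      ∀ i : Fin n, s i.castSucc ≤ s i.succ ∧
        ((s i.castSucc).subgroupOf (s i.succ)).Normal ∧
        (s i.castSucc).subgroupOf (s i.succ) ≠ ⊤ ∧
        ∀ M : Subgroup ↥(s i.succ), M.Normal →
          (s i.castSucc).subgroupOf (s i.succ) ≤ M →
            M = (s i.castSucc).subgroupOf (s i.succ) ∨ M = ⊤ := by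
  have hAG : Alt Om ≤ G0 := le_sup_left
  set A : Subgroup ↥G0 := (Alt Om).subgroupOf G0 with hA
  have hAn : A.Normal := by
    constructor
    intro l hl m
    rw [hA, Subgroup.mem_subgroupOf] at hl ⊢
    exact Alt_conj m hl
  have eA : A ≃* Alt Om := Subgroup.subgroupOfEquivOfLe hAG
  have hAs : IsSimpleGroup A := (eA.isSimpleGroup_congr).mpr Alt_simple
  refine ⟨2, ![⊥, A, ⊤], rfl, rfl, ?_⟩
  rw [Fin.forall_fin_two]
  constructor
  · change (⊥ : Subgroup ↥G0) ≤ A ∧ ((⊥ : Subgroup ↥G0).subgroupOf A).Normal ∧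
      (⊥ : Subgroup ↥G0).subgroupOf A ≠ ⊤ ∧ ∀ M : Subgroup ↥A, M.Normal →
        (⊥ : Subgroup ↥G0).subgroupOf A ≤ M → M = (⊥ : Subgroup ↥G0).subgroupOf A ∨ M = ⊤
    have hb : (⊥ : Subgroup ↥G0).subgroupOf A = ⊥ := Subgroup.bot_subgroupOf A
    rw [hb]
    refine ⟨bot_le, inferInstance, bot_ne_top, ?_⟩
    intro M hM _
    exact hM.eq_bot_or_eq_top
  · change A ≤ (⊤ : Subgroup ↥G0) ∧ (A.subgroupOf ⊤).Normal ∧
      A.subgroupOf ⊤ ≠ ⊤ ∧ ∀ M : Subgroup ↥(⊤ : Subgroup ↥G0), M.Normal →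
        A.subgroupOf ⊤ ≤ M → M = A.subgroupOf ⊤ ∨ M = ⊤
    refine ⟨le_top, hAn.subgroupOf ⊤, ?_, ?_⟩
    · intro h
      rw [Subgroup.subgroupOf_eq_top, top_le_iff] at h
      have hg : (⟨flip Sg, g_mem_Ext _⟩ : ↥G0) ∈ A := by rw [h]; exact Subgroup.mem_top _
      rw [hA, Subgroup.mem_subgroupOf] at hg
      exact flip_Sg_notMem hg
    · intro M _ hle
      by_cases hM : M ≤ A.subgroupOf ⊤
      · exact Or.inl (le_antisymm hM hle)
      · right
        rw [SetLike.not_le_iff_exists] at hM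
        obtain ⟨x, hxM, hxA⟩ := hM
        rw [eq_top_iff]
        intro y _
        have hcase : ∀ z : ↥(⊤ : Subgroup ↥G0), z ∉ A.subgroupOf ⊤ →
            ∃ a ∈ Alt Om, (z.1.1 : Perm Om) = a * flip Sg := by
          intro z hz
          rcases mem_Ext (flip_mul_self Sg) z.1.2 with h | h
          · exfalso
            apply hz
            rw [Subgroup.mem_subgroupOf, hA, Subgroup.mem_subgroupOf]
            exact h
          · exact h
        by_cases hyA : y ∈ A.subgroupOf ⊤
        · exact hle hyA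
        · obtain ⟨a, ha, hxa⟩ := hcase x hxA
          obtain ⟨b, hb, hyb⟩ := hcase y hyA
          have hyx : y * x⁻¹ ∈ A.subgroupOf ⊤ := by
            rw [Subgroup.mem_subgroupOf, hA, Subgroup.mem_subgroupOf]
            have : (((y * x⁻¹ : ↥(⊤ : Subgroup ↥G0)) : ↥G0) : Perm Om) = b * a⁻¹ := by
              have e : (((y * x⁻¹ : ↥(⊤ : Subgroup ↥G0)) : ↥G0) : Perm Om)
                  = y.1.1 * (x.1.1)⁻¹ := rfl
              rw [e, hxa, hyb]
              group
            rw [this]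
            exact (Alt Om).mul_mem hb ((Alt Om).inv_mem ha)
          have := M.mul_mem (hle hyx) hxM
          simpa using this

/-- conjugation fixes Alt and maps `Ext g` to `Ext (π g π⁻¹)`. -/
theorem map_Ext (π g : Perm Om) :
    (Ext g).map (MulAut.conj π).toMonoidHom = Ext (π * g * π⁻¹) := by
  unfold Ext
  rw [Subgroup.map_sup, MonoidHom.map_zpowers]
  congr 1
  apply le_antisymm
  · rintro _ ⟨a, ha, rfl⟩
    exact Alt_conj π ha
  · intro a ha
    refine ⟨π⁻¹ * a * π, ?_, ?_⟩
    · have := Alt_conj π⁻¹ ha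
      simpa using this
    · simp [mul_assoc]

/-- `Ext g` is normalised by anything commuting with `g`, and by `Alt`. -/
theorem Ext_normal {g : Perm Om} {L : Subgroup (Perm Om)}
    (hL : ∀ l ∈ L, ∃ a ∈ Alt Om, ∃ c, c * g = g * c ∧ l = a * c) :
    ∀ m ∈ L, ∀ l ∈ Ext g, m * l * m⁻¹ ∈ Ext g := by
  intro m hm l hl
  obtain ⟨a, ha, c, hc, rfl⟩ := hL m hm
  have h1 : c * l * c⁻¹ ∈ Ext g := by
    have : c * l * c⁻¹ ∈ (Ext g).map (MulAut.conj c).toMonoidHom := ⟨l, hl, rfl⟩
    rw [map_Ext, hc, mul_inv_cancel_right] at this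
    exact this
  have haE : a ∈ Ext g := (le_sup_left : Alt Om ≤ _) ha
  have e : a * c * l * (a * c)⁻¹ = a * (c * l * c⁻¹) * a⁻¹ := by group
  rw [e]
  exact (Ext g).mul_mem ((Ext g).mul_mem haE h1) ((Ext g).inv_mem haE)

theorem mem_big {g g' : Perm Om} (hc : g * g' = g' * g) {l : Perm Om}
    (hl : l ∈ Ext g ⊔ Ext g') :
    ∃ a ∈ Alt Om, ∃ c, (c * g = g * c ∧ c * g' = g' * c) ∧ l = a * c := by
  have h1 : Ext g ⊔ Ext g' ≤ Alt Om ⊔ (Subgroup.centralizer {g, g'}) := by
    have hz : ∀ k ∈ ({g, g'} : Set (Perm Om)), k ∈ Subgroup.centralizer ({g, g'} : Set (Perm Om)) := by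
      intro k hk
      rw [Subgroup.mem_centralizer_iff]
      intro h hh
      rcases hk with rfl | hk
      · rcases hh with rfl | hh
        · rfl
        · rw [Set.mem_singleton_iff] at hh; subst hh; exact hc.symm
      · rw [Set.mem_singleton_iff] at hk; subst hk
        rcases hh with rfl | hh
        · exact hc
        · rw [Set.mem_singleton_iff] at hh; subst hh; rfl
    apply sup_le
    · apply sup_le le_sup_left
      rw [Subgroup.zpowers_le]
      exact (le_sup_right : _ ≤ Alt Om ⊔ (Subgroup.centralizer {g, g'})) (hz g (by simp))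
    · apply sup_le le_sup_left
      rw [Subgroup.zpowers_le]
      exact (le_sup_right : _ ≤ Alt Om ⊔ (Subgroup.centralizer {g, g'})) (hz g' (by simp))
  have h2 : l ∈ ((Alt Om ⊔ (Subgroup.centralizer {g, g'}) : Subgroup (Perm Om)) : Set (Perm Om)) :=
    h1 hl
  rw [Subgroup.normal_mul] at h2
  obtain ⟨a, ha, c, hc', rfl⟩ := h2
  refine ⟨a, ha, c, ?_, rfl⟩
  have hc'' : c ∈ Subgroup.centralizer {g, g'} := hc'
  rw [Subgroup.mem_centralizer_iff] at hc''
  exact ⟨(hc'' g (by simp)).symm, (hc'' g' (by simp)).symm⟩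

/-- The small extensions are generated. -/
theorem gen_small (n : ℕ) : Gen ↥G0 inferInstance ↥(Ext (flip (Sh n))) inferInstance := by
  have hE := Gen_closed ↥G0 inferInstance
  have h0 : Gen ↥G0 inferInstance ↥(Ext (flip Sg)) inferInstance := fun E _ h => h
  have h1 : Gen ↥G0 inferInstance ↥(Ext (flip (Sg' n))) inferInstance := by
    have := hE.conj_rel (pi n) h0
    rw [map_Ext, pi_conj] at this
    exact this
  have hcomm : flip Sg * flip (Sg' n) = flip (Sg' n) * flip Sg := flip_comm _ _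
  have h2 : Gen ↥G0 inferInstance ↥(Ext (flip Sg) ⊔ Ext (flip (Sg' n))) inferInstance := by
    apply hE.sup_rel _ _ h0 h1
    · apply Ext_normal
      intro l hl
      obtain ⟨a, ha, c, ⟨hc, _⟩, rfl⟩ := mem_big hcomm hl
      exact ⟨a, ha, c, hc, rfl⟩
    · apply Ext_normal
      intro l hl
      obtain ⟨a, ha, c, ⟨_, hc⟩, rfl⟩ := mem_big hcomm hl
      exact ⟨a, ha, c, hc, rfl⟩
  apply hE.normal_rel _ _ h2
  · unfold Ext
    apply sup_le (le_sup_left.trans le_sup_left)
    rw [Subgroup.zpowers_le, flip_Sh]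
    apply Subgroup.mul_mem
    · exact (le_sup_left : _ ≤ Ext (flip Sg) ⊔ Ext (flip (Sg' n))) (g_mem_Ext _)
    · exact (le_sup_right : _ ≤ Ext (flip Sg) ⊔ Ext (flip (Sg' n))) (g_mem_Ext _)
  · apply Ext_normal
    intro l hl
    obtain ⟨a, ha, c, ⟨hc, hc'⟩, rfl⟩ := mem_big hcomm hl
    refine ⟨a, ha, c, ?_, rfl⟩
    rw [flip_Sh, ← mul_assoc, hc, mul_assoc, hc', mul_assoc]

/-- The infinitely many Fitting subclasses. -/
theorem infinite_classes :
    Set.Infinite {F : (H : Type) → Group H → Prop |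
      Closed F ∧ ∀ (K : Type) (iK : Group K), F K iK → Gen ↥G0 inferInstance K iK} := by
  apply Set.infinite_of_injective_forall_mem
    (f := fun n : ℕ => fun (H : Type) (iH : Group H) =>
      FC (kap n) H iH ∧ Gen ↥G0 inferInstance H iH)
  · have key : ∀ n m : ℕ, n < m → (fun (H : Type) (iH : Group H) =>
        FC (kap n) H iH ∧ Gen ↥G0 inferInstance H iH) ≠ (fun (H : Type) (iH : Group H) =>
        FC (kap m) H iH ∧ Gen ↥G0 inferInstance H iH) := by
      intro n m hnm heq
      have h1 : FC (kap m) ↥(Ext (flip (Sh m))) inferInstance := by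
        rw [FC_subgroup_iff]
        exact FR_Ext (aleph0_le_kap m) (flip_mul_self _)
          (small_of_supp (aleph0_le_kap m) _ (mk_supp_flip m))
      have h2 := congrFun (congrFun heq ↥(Ext (flip (Sh m)))) inferInstance
      have h3 : FC (kap n) ↥(Ext (flip (Sh m))) inferInstance :=
        (h2.mpr ⟨h1, gen_small m⟩).1
      rw [FC_subgroup_iff] at h3
      exact not_small hnm (h3 (Alt Om) (SN_Alt_Ext _) Alt_simple Alt_NC _ (g_mem_Ext _))
    intro n m hnm
    rcases lt_trichotomy n m with h | h | h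
    · exact absurd hnm (key n m h)
    · exact h
    · exact absurd hnm.symm (key m n h)
  · intro n
    exact ⟨(FC_closed (kap n) (aleph0_le_kap n)).inf (Gen_closed _ _), fun K iK h => h.2⟩

end Pool.Agent.Helper72.Fit
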