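import Mathlib

set_option autoImplicit false

namespace Pool.Agent.Helper72.Prof

open Subgroup
open scoped commutatorElement

universe u

section algebra

variable {G : Type u} [Group G]

/-- `F x = x ^ N` on central powers: raising to a further power. -/
theorem pow_mul_of_central {x y : G} {N : ℕ} (hx : x ^ N ∈ center G)
    (h : (x * y) ^ N = x ^ N * y ^ N) (q : ℕ) : (x * y) ^ (N * q) = x ^ (N * q) * y ^ (N * q) := by
  rw [pow_mul, h, pow_mul, pow_mul]
  exact (Commute.mul_pow (by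
    rw [mem_center_iff] at hx
    exact (hx _).symm) q)

/-- commutators with a fixed element, inside an abelian normal subgroup -/
theorem comm_mul {Q : Type u} [Group Q] {A : Subgroup Q} (hA : A.Normal)
    (hab : ∀ a ∈ A, ∀ b ∈ A, a * b = b * a) {a b : Q} (ha : a ∈ A) (hb : b ∈ A) (g : Q) :
    ⁅a * b, g⁆ = ⁅a, g⁆ * ⁅b, g⁆ := by
  have hbg : ⁅b, g⁆ ∈ A := by
    rw [commutatorElement_def]
    have : b * g * b⁻¹ * g⁻¹ = b * (g * b⁻¹ * g⁻¹) := by group
    rw [this]
    exact A.mul_mem hb (hA.conj_mem _ (A.inv_mem hb) g)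
  have hag : ⁅a, g⁆ ∈ A := by
    rw [commutatorElement_def]
    have : a * g * a⁻¹ * g⁻¹ = a * (g * a⁻¹ * g⁻¹) := by group
    rw [this]
    exact A.mul_mem ha (hA.conj_mem _ (A.inv_mem ha) g)
  have e : ⁅a * b, g⁆ = a * ⁅b, g⁆ * (g * a⁻¹ * g⁻¹) := by
    simp only [commutatorElement_def]; group
  rw [e, hab a ha _ hbg]
  have e2 : ⁅b, g⁆ * a * (g * a⁻¹ * g⁻¹) = ⁅b, g⁆ * ⁅a, g⁆ := by
    simp only [commutatorElement_def]; group
  rw [e2, hab _ hbg _ hag]

theorem comm_pow {Q : Type u} [Group Q] {A : Subgroup Q} (hA : A.Normal)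
    (hab : ∀ a ∈ A, ∀ b ∈ A, a * b = b * a) {a : Q} (ha : a ∈ A) (g : Q) (n : ℕ) :
    ⁅a ^ n, g⁆ = ⁅a, g⁆ ^ n := by
  induction n with
  | zero => simp
  | succ n ih => rw [pow_succ, comm_mul hA hab (A.pow_mem ha n) ha, ih, pow_succ]

end algebra

variable {G : Type u} [Group G] [TopologicalSpace G] [IsTopologicalGroup G] [CompactSpace G]
  [T2Space G]

omit [IsTopologicalGroup G] [CompactSpace G] in
theorem isClosed_center' [ContinuousMul G] : IsClosed (center G : Set G) := by
  have : (center G : Set G) = ⋂ g : G, {x | g * x = x * g} := by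
    ext x
    simp [mem_center_iff]
  rw [this]
  exact isClosed_iInter fun g => isClosed_eq (by fun_prop) (by fun_prop)

/-- The first Baire step. -/
theorem baire_step [TotallyDisconnectedSpace G]
    (hP : ∀ x y : G, ∃ N : ℕ, 0 < N ∧ x ^ N ∈ center G ∧ y ^ N ∈ center G ∧
      (x * y) ^ N = x ^ N * y ^ N) :
    ∃ (a b : G) (N : ℕ) (U : OpenNormalSubgroup G), 0 < N ∧ ∀ u ∈ U, ∀ v ∈ U,
      (a * u) ^ N ∈ center G ∧ (b * v) ^ N ∈ center G ∧
      (a * u * (b * v)) ^ N = (a * u) ^ N * (b * v) ^ N := by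
  let W : ℕ → Set (G × G) := fun n => {p | p.1 ^ n.factorial ∈ center G ∧
    p.2 ^ n.factorial ∈ center G ∧
    (p.1 * p.2) ^ n.factorial = p.1 ^ n.factorial * p.2 ^ n.factorial}
  have hclosed : ∀ n, IsClosed (W n) := by
    intro n
    apply IsClosed.inter
    · exact isClosed_center'.preimage (by fun_prop)
    apply IsClosed.inter
    · exact isClosed_center'.preimage (by fun_prop)
    · exact isClosed_eq (by fun_prop) (by fun_prop)
  have hcover : ⋃ n, W n = Set.univ := by
    rw [Set.eq_univ_iff_forall]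
    rintro ⟨x, y⟩
    obtain ⟨N, hN, hx, hy, hxy⟩ := hP x y
    obtain ⟨q, hq⟩ := Nat.dvd_factorial hN le_rfl
    rw [Set.mem_iUnion]
    refine ⟨N, ?_, ?_, ?_⟩
    · simp only
      rw [hq, pow_mul]; exact (center G).pow_mem hx q
    · simp only
      rw [hq, pow_mul]; exact (center G).pow_mem hy q
    · simp only
      rw [hq]; exact pow_mul_of_central hx hxy q
  obtain ⟨n, ⟨⟨a, b⟩, hab⟩⟩ := nonempty_interior_of_iUnion_of_closed hclosed hcover
  rw [mem_interior_iff_mem_nhds, mem_nhds_prod_iff] at hab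
  obtain ⟨A, hA, B, hB, hAB⟩ := hab
  have hA' : {u : G | a * u ∈ A} ∈ nhds (1 : G) := by
    apply (continuous_const_mul a).continuousAt.preimage_mem_nhds
    simpa using hA
  have hB' : {u : G | b * u ∈ B} ∈ nhds (1 : G) := by
    apply (continuous_const_mul b).continuousAt.preimage_mem_nhds
    simpa using hB
  obtain ⟨O, hO, hOo, hO1⟩ := mem_nhds_iff.mp (Filter.inter_mem hA' hB')
  obtain ⟨U, hU⟩ := ProfiniteGrp.exist_openNormalSubgroup_sub_open_nhds_of_one hOo hO1
  refine ⟨a, b, n.factorial, U, Nat.factorial_pos n, ?_⟩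
  intro u hu v hv
  have h1 := (hO (hU hu)).1
  have h2 := (hO (hU hv)).2
  exact hAB (Set.mk_mem_prod h1 h2)

/-- The core argument. -/
theorem core [TotallyDisconnectedSpace G]
    (hP : ∀ x y : G, ∃ N : ℕ, 0 < N ∧ x ^ N ∈ center G ∧ y ^ N ∈ center G ∧
      (x * y) ^ N = x ^ N * y ^ N) :
    ∀ g ∈ (_root_.commutator G).topologicalClosure, IsOfFinOrder g := by
  obtain ⟨a, b, N, U, hN, hF⟩ := baire_step hP
  set c : G := a * b with hc
  have hUn : (U : Subgroup G).Normal := U.isNormal'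
  have hUc : IsClosed ((U : Subgroup G) : Set G) := U.toOpenSubgroup.isClosed
  have hUo : IsOpen ((U : Subgroup G) : Set G) := U.isOpen'
  -- power facts
  have hcomm : ∀ z ∈ center G, ∀ g : G, z * g = g * z := fun z hz g => (mem_center_iff.mp hz g).symm
  have key : ∀ w₁ ∈ (U : Subgroup G), ∀ w₂ ∈ (U : Subgroup G),
      (c * (w₁ * w₂)) ^ N * c ^ N = (c * w₁) ^ N * (c * w₂) ^ N := by
    intro w₁ h₁ w₂ h₂
    set u : G := b * w₁ * b⁻¹ with hu
    have hu' : u ∈ (U : Subgroup G) := hUn.conj_mem w₁ h₁ b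
    have e1 : c * (w₁ * w₂) = a * u * (b * w₂) := by rw [hc, hu]; group
    have e2 : c * w₁ = a * u * (b * 1) := by rw [hc, hu]; group
    have e3 : c * w₂ = a * 1 * (b * w₂) := by rw [hc]; group
    have e4 : c = a * 1 * (b * 1) := by rw [hc]; group
    have h1 : (1 : G) ∈ (U : Subgroup G) := one_mem _
    obtain ⟨z1, z2, f1⟩ := hF u hu' w₂ h₂
    obtain ⟨_, z3, f2⟩ := hF u hu' 1 h1
    obtain ⟨z4, _, f3⟩ := hF 1 h1 w₂ h₂
    obtain ⟨_, _, f4⟩ := hF 1 h1 1 h1
    have g1 : (c * (w₁ * w₂)) ^ N = (a * u) ^ N * (b * w₂) ^ N := by rw [e1]; exact f1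
    have g2 : (c * w₁) ^ N = (a * u) ^ N * (b * 1) ^ N := by rw [e2]; exact f2
    have g3 : (c * w₂) ^ N = (a * 1) ^ N * (b * w₂) ^ N := by rw [e3]; exact f3
    have g4 : c ^ N = (a * 1) ^ N * (b * 1) ^ N := by rw [e4]; exact f4
    rw [g1, g2, g3, g4]
    have s1 := hcomm _ z2 ((a * 1) ^ N)
    have s2 := hcomm _ z3 ((a * 1) ^ N * (b * w₂) ^ N)
    calc (a * u) ^ N * (b * w₂) ^ N * ((a * 1) ^ N * (b * 1) ^ N)
        = (a * u) ^ N * (((b * w₂) ^ N * (a * 1) ^ N) * (b * 1) ^ N) := by simp only [mul_assoc]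
      _ = (a * u) ^ N * (((a * 1) ^ N * (b * w₂) ^ N) * (b * 1) ^ N) := by rw [s1]
      _ = (a * u) ^ N * ((b * 1) ^ N * ((a * 1) ^ N * (b * w₂) ^ N)) := by rw [s2]
      _ = (a * u) ^ N * (b * 1) ^ N * ((a * 1) ^ N * (b * w₂) ^ N) := by simp only [mul_assoc]
  have hcen : ∀ w ∈ (U : Subgroup G), (c * w) ^ N ∈ center G := by
    intro w hw
    obtain ⟨z1, z2, f1⟩ := hF 1 (one_mem _) w hw
    have e3 : c * w = a * 1 * (b * w) := by rw [hc]; group
    rw [e3, f1]
    exact (center G).mul_mem z1 z2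
  have hccen : c ^ N ∈ center G := by
    have := hcen 1 (one_mem _)
    rwa [mul_one] at this
  -- the homomorphism k
  let k : (U : Subgroup G) →* center G :=
    { toFun := fun w => ⟨(c * w) ^ N * (c ^ N)⁻¹,
        (center G).mul_mem (hcen w w.2) ((center G).inv_mem hccen)⟩
      map_one' := by
        apply Subtype.ext
        simp
      map_mul' := by
        intro w₁ w₂
        apply Subtype.ext
        have h := key w₁ w₁.2 w₂ w₂.2
        change (c * ((w₁ : G) * (w₂ : G))) ^ N * (c ^ N)⁻¹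
          = ((c * (w₁ : G)) ^ N * (c ^ N)⁻¹) * ((c * (w₂ : G)) ^ N * (c ^ N)⁻¹)
        have h2 : (c * ((w₁ : G) * (w₂ : G))) ^ N = (c * w₁) ^ N * (c * w₂) ^ N * (c ^ N)⁻¹ := by
          rw [← h]; group
        rw [h2]
        have s := hcomm _ ((center G).inv_mem hccen) ((c * (w₂ : G)) ^ N)
        calc (c * (w₁ : G)) ^ N * (c * (w₂ : G)) ^ N * (c ^ N)⁻¹ * (c ^ N)⁻¹
            = (c * (w₁ : G)) ^ N * ((c * (w₂ : G)) ^ N * (c ^ N)⁻¹) * (c ^ N)⁻¹ := by
              simp only [mul_assoc]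
          _ = (c * (w₁ : G)) ^ N * ((c ^ N)⁻¹ * (c * (w₂ : G)) ^ N) * (c ^ N)⁻¹ := by rw [s]
          _ = _ := by simp only [mul_assoc] }
  have hk : ∀ w : (U : Subgroup G), k w = 1 → (c * (w : G)) ^ N = c ^ N := by
    intro w hw
    have := congrArg Subtype.val hw
    change (c * (w : G)) ^ N * (c ^ N)⁻¹ = 1 at this
    exact mul_inv_eq_one.mp this
  -- V
  set V : Subgroup G := (⁅(U : Subgroup G), (U : Subgroup G)⁆).topologicalClosure with hV
  have hVn : V.Normal := by
    have : (⁅(U : Subgroup G), (U : Subgroup G)⁆).Normal := inferInstance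
    exact Subgroup.is_normal_topologicalClosure _
  have hVU : V ≤ (U : Subgroup G) := by
    apply Subgroup.topologicalClosure_minimal _ _ hUc
    exact Subgroup.commutator_le_left _ _
  have hVF : ∀ w ∈ V, (c * w) ^ N = c ^ N := by
    have h1 : ⁅(U : Subgroup G), (U : Subgroup G)⁆ ≤ (k.ker).map (U : Subgroup G).subtype := by
      rw [Subgroup.commutator_le]
      intro u hu v hv
      refine ⟨⁅(⟨u, hu⟩ : (U : Subgroup G)), (⟨v, hv⟩ : (U : Subgroup G))⁆, ?_, ?_⟩
      · rw [SetLike.mem_coe, MonoidHom.mem_ker, map_commutatorElement,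
          commutatorElement_eq_one_iff_mul_comm]
        apply Subtype.ext
        exact (mem_center_iff.mp (k ⟨u, hu⟩).2 _).symm
      · simp [commutatorElement_def]
    have h2 : IsClosed {w : G | (c * w) ^ N = c ^ N} := isClosed_eq (by fun_prop) (by fun_prop)
    have h3 : ((⁅(U : Subgroup G), (U : Subgroup G)⁆ : Subgroup G) : Set G)
        ⊆ {w : G | (c * w) ^ N = c ^ N} := by
      intro w hw
      obtain ⟨w', hw', rfl⟩ := h1 hw
      exact hk w' hw'
    intro w hw
    exact closure_minimal h3 h2 hw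
  have hVtor : ∀ w ∈ V, IsOfFinOrder w := by
    intro w hw
    obtain ⟨M, hM, hcM, hwM, hcw⟩ := hP c w
    have e1 : (c * w) ^ (N * M) = c ^ (N * M) := by rw [pow_mul, hVF w hw, pow_mul]
    have e2 : (c * w) ^ (M * N) = c ^ (M * N) * w ^ (M * N) := pow_mul_of_central hcM hcw N
    rw [mul_comm M N, e1] at e2
    rw [isOfFinOrder_iff_pow_eq_one]
    exact ⟨N * M, Nat.mul_pos hN hM, (mul_eq_left.mp e2.symm)⟩
  have hVc : IsClosed (V : Set G) := Subgroup.isClosed_topologicalClosure _
  -- quotient by V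
  let q : G →* G ⧸ V := QuotientGroup.mk' V
  have hq : ∀ x, q x = 1 ↔ x ∈ V := fun x => by
    rw [← MonoidHom.mem_ker, QuotientGroup.ker_mk']
  set A : Subgroup (G ⧸ V) := (U : Subgroup G).map q with hA
  have hAn : A.Normal := hUn.map q (QuotientGroup.mk'_surjective V)
  have hAab : ∀ x ∈ A, ∀ y ∈ A, x * y = y * x := by
    rintro _ ⟨x, hx, rfl⟩ _ ⟨y, hy, rfl⟩
    rw [← commutatorElement_eq_one_iff_mul_comm, ← map_commutatorElement, hq]
    exact Subgroup.le_topologicalClosure _ (Subgroup.commutator_mem_commutator hx hy)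
  -- second Baire step
  have hUmem : ∀ (u : (U : Subgroup G)), q u ∈ A := fun u => ⟨u, u.2, rfl⟩
  have hexpo : ∃ M : ℕ, 0 < M ∧ ∀ u ∈ (U : Subgroup G), ∀ g : G, ⁅u, g⁆ ^ M ∈ V := by
    let X : ℕ → Subgroup (U : Subgroup G) := fun n =>
      { carrier := {u | ∀ g : G, ⁅(u : G), g⁆ ^ n.factorial ∈ V}
        one_mem' := by intro g; simp [V.one_mem]
        mul_mem' := by
          intro u v hu hv g
          rw [← hq, map_pow, map_commutatorElement, Subgroup.coe_mul, map_mul,
            comm_mul hAn hAab (hUmem u) (hUmem v), ← map_commutatorElement,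
            ← map_commutatorElement, Commute.mul_pow, ← map_pow, ← map_pow,
            (hq _).mpr (hu g), (hq _).mpr (hv g), one_mul]
          have h1 : ⁅(u : G), g⁆ ∈ (U : Subgroup G) := by
            rw [commutatorElement_def]
            have : (u : G) * g * (u : G)⁻¹ * g⁻¹ = u * (g * (u : G)⁻¹ * g⁻¹) := by group
            rw [this]
            exact mul_mem u.2 (hUn.conj_mem _ (inv_mem u.2) g)
          have h2 : ⁅(v : G), g⁆ ∈ (U : Subgroup G) := by
            rw [commutatorElement_def]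
            have : (v : G) * g * (v : G)⁻¹ * g⁻¹ = v * (g * (v : G)⁻¹ * g⁻¹) := by group
            rw [this]
            exact mul_mem v.2 (hUn.conj_mem _ (inv_mem v.2) g)
          exact hAab _ ⟨_, h1, rfl⟩ _ ⟨_, h2, rfl⟩
        inv_mem' := by
          intro u hu g
          have h0 : q ⁅((u⁻¹ : (U : Subgroup G)) : G), g⁆ = (q ⁅(u : G), g⁆)⁻¹ := by
            rw [eq_inv_iff_mul_eq_one]
            have h1 := comm_mul hAn hAab (hUmem u⁻¹) (hUmem u) (q g)
            rw [← map_mul, ← Subgroup.coe_mul, inv_mul_cancel, Subgroup.coe_one, map_one,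
              ← map_commutatorElement, ← map_commutatorElement] at h1
            rw [← h1]
            simp [commutatorElement_def]
          rw [← hq, map_pow, h0, inv_pow, ← map_pow, (hq _).mpr (hu g), inv_one] }
    have hXc : ∀ n, IsClosed ((X n : Subgroup (U : Subgroup G)) : Set (U : Subgroup G)) := by
      intro n
      have : ((X n : Subgroup (U : Subgroup G)) : Set (U : Subgroup G))
          = ⋂ g : G, {u : (U : Subgroup G) | ⁅(u : G), g⁆ ^ n.factorial ∈ V} := by
        ext u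
        simp [X]
      rw [this]
      apply isClosed_iInter
      intro g
      apply hVc.preimage
      simp only [commutatorElement_def]
      fun_prop
    have hXu : ⋃ n, ((X n : Subgroup (U : Subgroup G)) : Set (U : Subgroup G)) = Set.univ := by
      rw [Set.eq_univ_iff_forall]
      intro u
      obtain ⟨M, hM, hu, _, _⟩ := hP u 1
      rw [Set.mem_iUnion]
      refine ⟨M, fun g => ?_⟩
      obtain ⟨r, hr⟩ := Nat.dvd_factorial hM le_rfl
      rw [hr, pow_mul]
      apply V.pow_mem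
      rw [← hq, map_pow, map_commutatorElement, ← comm_pow hAn hAab (hUmem u), ← map_pow,
        ← map_commutatorElement]
      have : ⁅(u : G) ^ M, g⁆ = 1 := by
        rw [commutatorElement_eq_one_iff_mul_comm]
        exact hcomm _ hu g
      rw [this, map_one]
    haveI : CompactSpace (U : Subgroup G) := isCompact_iff_compactSpace.mp hUc.isCompact
    obtain ⟨n, ⟨u0, hu0⟩⟩ := nonempty_interior_of_iUnion_of_closed hXc hXu
    have hXo : IsOpen ((X n : Subgroup (U : Subgroup G)) : Set (U : Subgroup G)) :=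
      Subgroup.isOpen_of_mem_nhds _ (mem_interior_iff_mem_nhds.mp hu0)
    have hfi : (X n).FiniteIndex := by
      haveI : Finite ((U : Subgroup G) ⧸ (X n)) := Subgroup.quotient_finite_of_isOpen _ hXo
      exact Subgroup.finiteIndex_of_finite_quotient
    refine ⟨n.factorial * ((X n).index.factorial),
      Nat.mul_pos (Nat.factorial_pos _) (Nat.factorial_pos _), ?_⟩
    intro u hu g
    obtain ⟨j, hj, hj', hjX⟩ := Subgroup.exists_pow_mem_of_index_ne_zero
      (hfi.index_ne_zero) (⟨u, hu⟩ : (U : Subgroup G))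
    obtain ⟨r, hr⟩ := Nat.dvd_factorial hj hj'
    have h1 : ⁅u ^ j, g⁆ ^ n.factorial ∈ V := hjX g
    rw [← hq, map_pow, map_commutatorElement, map_pow,
      comm_pow hAn hAab (⟨u, hu, rfl⟩ : q u ∈ A), ← map_commutatorElement, ← pow_mul, ← map_pow,
      hq] at h1
    have h2 : n.factorial * (X n).index.factorial = (j * n.factorial) * r := by
      rw [hr]; ring
    rw [h2, pow_mul]
    exact V.pow_mem h1 r
  obtain ⟨M, hM, hMV⟩ := hexpo
  -- the subgroup B
  let B : Subgroup G :=
    { carrier := {w | w ∈ (U : Subgroup G) ∧ w ^ M ∈ V}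
      one_mem' := ⟨one_mem _, by simp [V.one_mem]⟩
      mul_mem' := by
        rintro x y ⟨hx, hxM⟩ ⟨hy, hyM⟩
        refine ⟨mul_mem hx hy, ?_⟩
        rw [← hq, map_pow, map_mul, Commute.mul_pow (hAab _ ⟨x, hx, rfl⟩ _ ⟨y, hy, rfl⟩),
          ← map_pow, ← map_pow, (hq _).mpr hxM, (hq _).mpr hyM, one_mul]
      inv_mem' := by
        rintro x ⟨hx, hxM⟩
        refine ⟨inv_mem hx, ?_⟩
        rw [inv_pow]
        exact V.inv_mem hxM }
  have hBmem : ∀ w, w ∈ B ↔ w ∈ (U : Subgroup G) ∧ w ^ M ∈ V := fun w => Iff.rfl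
  have hBn : B.Normal := by
    constructor
    intro w hw g
    rw [hBmem] at hw ⊢
    refine ⟨hUn.conj_mem _ hw.1 g, ?_⟩
    rw [conj_pow]
    exact hVn.conj_mem _ hw.2 g
  have hBc : IsClosed (B : Set G) := by
    have : (B : Set G) = (U : Set G) ∩ {w | w ^ M ∈ V} := rfl
    rw [this]
    exact hUc.inter (hVc.preimage (by fun_prop))
  have hBtor : ∀ w ∈ B, IsOfFinOrder w := by
    intro w hw
    have h1 := hVtor _ ((hBmem w).mp hw).2
    exact (isOfFinOrder_pow.mp h1).resolve_right (by omega)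
  -- quotient by B
  let r : G →* G ⧸ B := QuotientGroup.mk' B
  have hr : ∀ x, r x = 1 ↔ x ∈ B := fun x => by
    rw [← MonoidHom.mem_ker, QuotientGroup.ker_mk']
  have hUcen : (U : Subgroup G).map r ≤ center (G ⧸ B) := by
    rintro _ ⟨u, hu, rfl⟩
    rw [mem_center_iff]
    intro g
    obtain ⟨g, rfl⟩ := QuotientGroup.mk'_surjective B g
    have h1 : ⁅u, g⁆ ∈ B := by
      rw [hBmem]
      refine ⟨?_, hMV u hu g⟩
      rw [commutatorElement_def]
      have : u * g * u⁻¹ * g⁻¹ = u * (g * u⁻¹ * g⁻¹) := by group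
      rw [this]
      exact mul_mem hu (hUn.conj_mem _ (inv_mem hu) g)
    have h2 : r ⁅u, g⁆ = 1 := (hr _).mpr h1
    rw [map_commutatorElement, commutatorElement_eq_one_iff_mul_comm] at h2
    exact h2.symm
  haveI : Finite (G ⧸ (U : Subgroup G)) := Subgroup.quotient_finite_of_isOpen _ hUo
  haveI hUfi : (U : Subgroup G).FiniteIndex := Subgroup.finiteIndex_of_finite_quotient
  have hmapfi : ((U : Subgroup G).map r).FiniteIndex := by
    constructor
    intro h0
    have h1 := (U : Subgroup G).index_map_dvd (f := r) (QuotientGroup.mk'_surjective B)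
    rw [h0, zero_dvd_iff] at h1
    exact hUfi.index_ne_zero h1
  haveI hcfi : (center (G ⧸ B)).FiniteIndex := Subgroup.finiteIndex_of_le hUcen
  set n := (center (G ⧸ B)).index with hn
  have hn0 : n ≠ 0 := hcfi.index_ne_zero
  have hcl : IsClosed {g : G | g ^ n ∈ B} := hBc.preimage (by fun_prop)
  have hsub : ((_root_.commutator G : Subgroup G) : Set G) ⊆ {g : G | g ^ n ∈ B} := by
    intro g hg
    have h1 : _root_.commutator G ≤ ((MonoidHom.transferCenterPow (G ⧸ B)).comp r).ker := by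
      rw [_root_.commutator_def, Subgroup.commutator_le]
      intro x _ y _
      rw [MonoidHom.mem_ker, map_commutatorElement, commutatorElement_eq_one_iff_mul_comm]
      apply Subtype.ext
      exact (mem_center_iff.mp (((MonoidHom.transferCenterPow (G ⧸ B)).comp r) x).2 _).symm
    have h2 := h1 hg
    rw [MonoidHom.mem_ker, MonoidHom.comp_apply] at h2
    have h3 := congrArg Subtype.val h2
    rw [MonoidHom.transferCenterPow_apply, ← hn, ← map_pow] at h3
    exact (hr _).mp h3
  intro g hg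
  have h1 : g ^ n ∈ B := closure_minimal hsub hcl hg
  exact (isOfFinOrder_pow.mp (hBtor _ h1)).resolve_right hn0

end Pool.Agent.Helper72.Prof
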