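import Pool.Agent.Helper72.Profinite

set_option autoImplicit false

namespace Pool.Agent.Helper72.Prof

open Subgroup
open scoped commutatorElement

universe u

/-- Schur/transfer: if the images of `x, y` in `G/Z(G)` generate a finite group then some common
power map is multiplicative at `(x, y)`. -/
theorem power_of_finite {G : Type u} [Group G] (x y : G)
    (h : Finite (closure {(x : G ⧸ center G), (y : G ⧸ center G)} : Subgroup (G ⧸ center G))) :
    ∃ N : ℕ, 0 < N ∧ x ^ N ∈ center G ∧ y ^ N ∈ center G ∧ (x * y) ^ N = x ^ N * y ^ N := by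
  set H : Subgroup G := closure {x, y} with hH
  let q : G →* G ⧸ center G := QuotientGroup.mk' (center G)
  have hmap : H.map q = closure {(x : G ⧸ center G), (y : G ⧸ center G)} := by
    rw [hH, MonoidHom.map_closure]
    congr 1
    simp [Set.image_pair, q]
  have hfin : Finite (H.map q) := by rw [hmap]; exact h
  have hx : x ∈ H := subset_closure (by simp)
  have hy : y ∈ H := subset_closure (by simp)
  -- the restriction of q to H
  let f : H →* (H.map q) := q.subgroupMap H
  have hker : f.ker ≤ center H := by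
    intro w hw
    rw [mem_center_iff]
    intro g
    rw [MonoidHom.mem_ker] at hw
    have h1 : q (w : G) = 1 := congrArg Subtype.val hw
    have h2 : (w : G) ∈ center G := by
      rw [← MonoidHom.mem_ker, QuotientGroup.ker_mk'] at h1
      exact h1
    apply Subtype.ext
    exact mem_center_iff.mp h2 g
  have hfk : f.ker.FiniteIndex := by
    have : Finite f.range := inferInstance
    exact Subgroup.finiteIndex_ker f
  have hcf : (center H).FiniteIndex := Subgroup.finiteIndex_of_le hker
  set n := (center H).index with hn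
  have hn0 : 0 < n := Nat.pos_of_ne_zero hcf.index_ne_zero
  have hmul : ∀ a b : H, (a * b) ^ n = a ^ n * b ^ n := by
    intro a b
    have := congrArg Subtype.val ((MonoidHom.transferCenterPow H).map_mul a b)
    rw [MonoidHom.transferCenterPow_apply] at this
    simpa [MonoidHom.transferCenterPow_apply] using this
  have hcen : ∀ a : H, a ^ n ∈ center H := by
    intro a
    have := (MonoidHom.transferCenterPow H a).2
    rwa [MonoidHom.transferCenterPow_apply] at this
  have hord : ∀ a ∈ H, ∃ m : ℕ, 0 < m ∧ a ^ m ∈ center G := by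
    intro a ha
    have h1 : IsOfFinOrder (f ⟨a, ha⟩) := isOfFinOrder_of_finite _
    obtain ⟨m, hm, h2⟩ := isOfFinOrder_iff_pow_eq_one.mp h1
    refine ⟨m, hm, ?_⟩
    have h3 : q (a ^ m) = 1 := by
      have := congrArg Subtype.val h2
      rw [map_pow]
      exact this
    rw [← MonoidHom.mem_ker, QuotientGroup.ker_mk'] at h3
    exact h3
  obtain ⟨N1, hN1, hx1⟩ := hord x hx
  obtain ⟨N2, hN2, hy2⟩ := hord y hy
  refine ⟨n * (N1 * N2), Nat.mul_pos hn0 (Nat.mul_pos hN1 hN2), ?_, ?_, ?_⟩
  · have : n * (N1 * N2) = N1 * (n * N2) := by ring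
    rw [this, pow_mul]
    exact (center G).pow_mem hx1 _
  · have : n * (N1 * N2) = N2 * (n * N1) := by ring
    rw [this, pow_mul]
    exact (center G).pow_mem hy2 _
  · have h1 : (x * y) ^ n = x ^ n * y ^ n := by
      have := congrArg Subtype.val (hmul ⟨x, hx⟩ ⟨y, hy⟩)
      simpa using this
    have h2 : Commute (x ^ n) (y ^ n) := by
      have := mem_center_iff.mp (hcen ⟨x, hx⟩) (⟨y, hy⟩ ^ n)
      have := congrArg Subtype.val this
      exact (by simpa using this.symm : x ^ n * y ^ n = y ^ n * x ^ n)
    rw [pow_mul, h1, h2.mul_pow, ← pow_mul, ← pow_mul]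

/-- `G/Z(G)` locally finite (in the sense of two-generated subgroups) implies that the closed
commutator subgroup is periodic. -/
theorem main_locally_finite (G : Type u) [Group G] [TopologicalSpace G] [IsTopologicalGroup G]
    [CompactSpace G] [T2Space G] [TotallyDisconnectedSpace G]
    (h : ∀ x y : G ⧸ center G, Finite (closure {x, y} : Subgroup (G ⧸ center G))) :
    ∀ g ∈ (_root_.commutator G).topologicalClosure, IsOfFinOrder g :=
  core fun x y => power_of_finite x y (h x y)

/-- Reduction: it is enough that the commutator subgroups of the two-generated subgroups are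
periodic. -/
theorem power_of_torsion_commutator {G : Type u} [Group G]
    (hper : ∀ x : G ⧸ center G, IsOfFinOrder x) (x y : G)
    (h : ∀ g ∈ ⁅closure {x, y}, closure {x, y}⁆, IsOfFinOrder g) :
    ∃ N : ℕ, 0 < N ∧ x ^ N ∈ center G ∧ y ^ N ∈ center G ∧ (x * y) ^ N = x ^ N * y ^ N := by
  have hord : ∀ a : G, ∃ m : ℕ, 0 < m ∧ a ^ m ∈ center G := by
    intro a
    obtain ⟨m, hm, h2⟩ := isOfFinOrder_iff_pow_eq_one.mp (hper (QuotientGroup.mk' _ a))
    refine ⟨m, hm, ?_⟩
    rw [← map_pow, ← MonoidHom.mem_ker, QuotientGroup.ker_mk'] at h2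
    exact h2
  obtain ⟨m1, h1, c1⟩ := hord x
  obtain ⟨m2, h2, c2⟩ := hord y
  obtain ⟨m3, h3, c3⟩ := hord (x * y)
  set N := m1 * m2 * m3 with hN
  have hNpos : 0 < N := Nat.mul_pos (Nat.mul_pos h1 h2) h3
  have k1 : x ^ N ∈ center G := by
    have : N = m1 * (m2 * m3) := by rw [hN]; ring
    rw [this, pow_mul]; exact (center G).pow_mem c1 _
  have k2 : y ^ N ∈ center G := by
    have : N = m2 * (m1 * m3) := by rw [hN]; ring
    rw [this, pow_mul]; exact (center G).pow_mem c2 _
  have k3 : (x * y) ^ N ∈ center G := by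
    have : N = m3 * (m1 * m2) := by rw [hN]; ring
    rw [this, pow_mul]; exact (center G).pow_mem c3 _
  set H : Subgroup G := closure {x, y} with hH
  have hx : x ∈ H := subset_closure (by simp)
  have hy : y ∈ H := subset_closure (by simp)
  -- the defect
  set d : G := (x ^ N * y ^ N)⁻¹ * (x * y) ^ N with hd
  have hdH : d ∈ ⁅H, H⁆ := by
    have e : ((⟨x, hx⟩ : H) ^ N * (⟨y, hy⟩ : H) ^ N)⁻¹ * ((⟨x, hx⟩ : H) * ⟨y, hy⟩) ^ N
        ∈ _root_.commutator H := by
      rw [← Abelianization.ker_of, MonoidHom.mem_ker]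
      simp only [map_mul, map_inv, map_pow]
      rw [mul_pow]
      group
    have e2 : (_root_.commutator H).map H.subtype = ⁅H, H⁆ := by
      rw [_root_.commutator_def, Subgroup.map_commutator, ← MonoidHom.range_eq_map,
        Subgroup.range_subtype]
    rw [← e2]
    exact ⟨_, e, rfl⟩
  obtain ⟨M, hM, hdM⟩ := isOfFinOrder_iff_pow_eq_one.mp (h d hdH)
  have e0 : (x * y) ^ N = (x ^ N * y ^ N) * d := by rw [hd]; group
  have hcc : Commute (x ^ N) (y ^ N) := (mem_center_iff.mp k1 _).symm
  have hcd : Commute (x ^ N * y ^ N) d := (mem_center_iff.mp ((center G).mul_mem k1 k2) _).symm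
  refine ⟨N * M, Nat.mul_pos hNpos hM, ?_, ?_, ?_⟩
  · rw [pow_mul]; exact (center G).pow_mem k1 _
  · rw [pow_mul]; exact (center G).pow_mem k2 _
  · rw [pow_mul, e0, hcd.mul_pow, hdM, mul_one, hcc.mul_pow, ← pow_mul, ← pow_mul]

/-- The reduction to two-generated subgroups. -/
theorem main_reduction (G : Type u) [Group G] [TopologicalSpace G] [IsTopologicalGroup G]
    [CompactSpace G] [T2Space G] [TotallyDisconnectedSpace G]
    (hper : ∀ x : G ⧸ center G, IsOfFinOrder x) :
    (∀ g ∈ (_root_.commutator G).topologicalClosure, IsOfFinOrder g) ↔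
      ∀ x y : G, ∀ g ∈ ⁅Subgroup.closure {x, y}, Subgroup.closure {x, y}⁆, IsOfFinOrder g := by
  constructor
  · intro h x y g hg
    refine h g (Subgroup.le_topologicalClosure _ ?_)
    rw [_root_.commutator_def]
    exact Subgroup.commutator_mono le_top le_top hg
  · intro h
    exact core fun x y => power_of_torsion_commutator hper x y (h x y)

/-- The quotient of a profinite group by a closed normal subgroup is totally disconnected. -/
theorem quotient_totallyDisconnected (G : Type u) [Group G] [TopologicalSpace G]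
    [IsTopologicalGroup G] [CompactSpace G] [T2Space G] [TotallyDisconnectedSpace G]
    (N : Subgroup G) [N.Normal] (hN : IsClosed (N : Set G)) :
    TotallyDisconnectedSpace (G ⧸ N) := by
  rw [totallyDisconnectedSpace_iff_connectedComponent_one]
  apply Set.eq_singleton_iff_unique_mem.mpr
  refine ⟨mem_connectedComponent, ?_⟩
  intro z hz
  obtain ⟨x, rfl⟩ := QuotientGroup.mk_surjective z
  by_contra hx
  have hxN : x ∉ N := fun hh => hx ((QuotientGroup.eq_one_iff x).mpr hh)
  -- an open nbhd of 1 whose x-translate misses N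
  have hopen : IsOpen {u : G | x * u ∉ N} :=
    (hN.isOpen_compl).preimage (continuous_const_mul x)
  obtain ⟨U, hU⟩ := ProfiniteGrp.exist_openNormalSubgroup_sub_open_nhds_of_one hopen
    (by simpa using hxN)
  set V : Subgroup (G ⧸ N) := (U : Subgroup G).map (QuotientGroup.mk' N) with hV
  have hVo : IsOpen (V : Set (G ⧸ N)) := by
    have : (V : Set (G ⧸ N)) = (QuotientGroup.mk : G → G ⧸ N) '' (U : Set G) := rfl
    rw [this]
    exact QuotientGroup.isOpenMap_coe _ U.isOpen'
  have hVclopen : IsClopen (V : Set (G ⧸ N)) := ⟨Subgroup.isClosed_of_isOpen V hVo, hVo⟩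
  have h1 : (connectedComponent (1 : G ⧸ N)) ⊆ (V : Set (G ⧸ N)) :=
    hVclopen.connectedComponent_subset V.one_mem
  obtain ⟨u, hu, hux⟩ := h1 hz
  have h2 : u⁻¹ * x ∈ N := QuotientGroup.eq.mp hux
  have h3 : x * u⁻¹ ∈ N := by
    have := (inferInstance : N.Normal).conj_mem _ h2 u
    simpa [mul_assoc] using this
  have h4 : u⁻¹ ∈ (U : Set G) := (U : Subgroup G).inv_mem hu
  exact hU h4 h3

end Pool.Agent.Helper72.Prof
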