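import Mathlib

set_option autoImplicit false

namespace Pool.Agent.Helper72.WN

universe u

/-- words of length `n` -/
abbrev Wd (n : ℕ) : Type := Fin n → Bool

/-- number of ones -/
def cnt {n : ℕ} (u : Wd n) : ℕ := ∑ i, (u i).toNat

theorem cnt_snoc {n : ℕ} (u : Wd n) (b : Bool) :
    cnt (Fin.snoc (α := fun _ => Bool) u b : Wd (n + 1)) = cnt u + b.toNat := by
  unfold cnt
  rw [Fin.sum_univ_castSucc]
  simp

theorem cnt_le {n : ℕ} (u : Wd n) : cnt u ≤ n := by
  unfold cnt
  calc ∑ i, (u i).toNat ≤ ∑ _i : Fin n, 1 := Finset.sum_le_sum fun i _ => Bool.toNat_le (u i)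
    _ = n := by simp

theorem exists_cnt (n c : ℕ) (h : c ≤ n) : ∃ u : Wd n, cnt u = c := by
  induction n generalizing c with
  | zero => exact ⟨fun _ => false, by simp [cnt]; omega⟩
  | succ n ih =>
    rcases Nat.lt_or_ge n c with h' | h'
    · obtain ⟨u, hu⟩ := ih n le_rfl
      refine ⟨(Fin.snoc (α := fun _ => Bool) u true : Wd (n + 1)), ?_⟩
      rw [cnt_snoc, hu]; simp; omega
    · obtain ⟨u, hu⟩ := ih c h'
      refine ⟨(Fin.snoc (α := fun _ => Bool) u false : Wd (n + 1)), ?_⟩
      rw [cnt_snoc, hu]; simp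

variable (k : Type u) [Field k]

/-- the space acted on -/
abbrev V : Type u := (ℕ → Bool) → k

/-- the initial segment -/
def hd (n : ℕ) (x : ℕ → Bool) : Wd n := fun i => x i

/-- replace the initial segment -/
def spl (n : ℕ) (w : Wd n) (x : ℕ → Bool) : ℕ → Bool := fun m => if h : m < n then w ⟨m, h⟩ else x m

theorem hd_spl (n : ℕ) (w : Wd n) (x : ℕ → Bool) : hd n (spl n w x) = w := by
  funext i; simp [hd, spl]

theorem spl_spl (n : ℕ) (w w' : Wd n) (x : ℕ → Bool) : spl n w (spl n w' x) = spl n w x := by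
  funext m
  unfold spl
  by_cases h : m < n <;> simp [h]

theorem spl_hd (n : ℕ) (x : ℕ → Bool) : spl n (hd n x) x = x := by
  funext m
  unfold spl hd
  by_cases h : m < n <;> simp [h]

/-- The action of a matrix indexed by words of length `n`. -/
def phi (n : ℕ) (a : Matrix (Wd n) (Wd n) k) : Module.End k (V k) where
  toFun f := fun x => ∑ w, a (hd n x) w * f (spl n w x)
  map_add' f g := by
    funext x
    simp only [Pi.add_apply, mul_add, Finset.sum_add_distrib]
  map_smul' c f := by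
    funext x
    simp only [Pi.smul_apply, smul_eq_mul, RingHom.id_apply, Finset.mul_sum]
    exact Finset.sum_congr rfl fun w _ => by ring

variable {k}

theorem phi_apply (n : ℕ) (a : Matrix (Wd n) (Wd n) k) (f : V k) (x : ℕ → Bool) :
    phi k n a f x = ∑ w, a (hd n x) w * f (spl n w x) := rfl

theorem phi_add (n : ℕ) (a b : Matrix (Wd n) (Wd n) k) :
    phi k n (a + b) = phi k n a + phi k n b := by
  ext f x
  simp only [phi_apply, LinearMap.add_apply, Pi.add_apply, Matrix.add_apply, add_mul,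
    Finset.sum_add_distrib]

theorem phi_smul (n : ℕ) (c : k) (a : Matrix (Wd n) (Wd n) k) :
    phi k n (c • a) = c • phi k n a := by
  ext f x
  simp only [phi_apply, LinearMap.smul_apply, Pi.smul_apply, Matrix.smul_apply, smul_eq_mul,
    Finset.mul_sum, mul_assoc]

theorem phi_zero (n : ℕ) : phi k n 0 = 0 := by
  ext f x
  simp [phi_apply]

theorem phi_mul (n : ℕ) (a b : Matrix (Wd n) (Wd n) k) :
    phi k n (a * b) = phi k n a * phi k n b := by
  ext f x
  rw [Module.End.mul_apply, phi_apply, phi_apply]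
  simp only [phi_apply, hd_spl, spl_spl, Matrix.mul_apply, Finset.sum_mul, Finset.mul_sum]
  rw [Finset.sum_comm]
  exact Finset.sum_congr rfl fun w _ => Finset.sum_congr rfl fun w' _ => by ring

theorem phi_one (n : ℕ) : phi k n 1 = 1 := by
  ext f x
  rw [phi_apply, Finset.sum_eq_single (hd n x)]
  · simp [spl_hd]
  · intro w _ hw
    rw [Matrix.one_apply_ne hw.symm, zero_mul]
  · simp

theorem phi_injective (n : ℕ) : Function.Injective (phi k n) := by
  have key : ∀ a : Matrix (Wd n) (Wd n) k, phi k n a = 0 → a = 0 := by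
    intro a ha
    ext u v
    classical
    set x : ℕ → Bool := spl n u (fun _ => false) with hx
    have h1 := congrFun (LinearMap.congr_fun ha
      (fun y => if y = spl n v x then (1 : k) else 0)) x
    rw [phi_apply, Finset.sum_eq_single v] at h1
    · simpa [hx, hd_spl] using h1
    · intro w _ hw
      rw [if_neg, mul_zero]
      intro h
      apply hw
      rw [← hd_spl n w x, h, hd_spl]
    · simp
  intro a b hab
  have : phi k n (a - b) = 0 := by
    ext f x
    have h := congrFun (LinearMap.congr_fun hab f) x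
    rw [phi_apply, phi_apply] at h
    simp only [phi_apply, Matrix.sub_apply, sub_mul, Finset.sum_sub_distrib, h, sub_self,
      LinearMap.zero_apply, Pi.zero_apply]
  exact sub_eq_zero.mp (key _ this)

/-- one level up -/
def lft {n : ℕ} (a : Matrix (Wd n) (Wd n) k) : Matrix (Wd (n + 1)) (Wd (n + 1)) k :=
  fun u v => if u (Fin.last n) = v (Fin.last n) then
    a (Fin.init (α := fun _ => Bool) u) (Fin.init (α := fun _ => Bool) v) else 0

theorem init_hd (n : ℕ) (x : ℕ → Bool) :
    Fin.init (α := fun _ => Bool) (hd (n + 1) x) = hd n x := by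
  funext i; rfl

theorem spl_snoc (n : ℕ) (w : Wd n) (x : ℕ → Bool) :
    spl (n + 1) (Fin.snoc (α := fun _ => Bool) w (x n)) x = spl n w x := by
  funext m
  unfold spl
  by_cases h : m < n
  · have h' : m < n + 1 := by omega
    rw [dif_pos h', dif_pos h]
    have : (⟨m, h'⟩ : Fin (n + 1)) = Fin.castSucc ⟨m, h⟩ := rfl
    rw [this, Fin.snoc_castSucc]
  · rw [dif_neg h]
    by_cases h' : m < n + 1
    · have hm : m = n := by omega
      subst hm
      rw [dif_pos h']
      have : (⟨m, h'⟩ : Fin (m + 1)) = Fin.last m := rfl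
      rw [this, Fin.snoc_last]
    · rw [dif_neg h']

theorem phi_lft (n : ℕ) (a : Matrix (Wd n) (Wd n) k) : phi k (n + 1) (lft a) = phi k n a := by
  ext f x
  rw [phi_apply, phi_apply]
  rw [← (Fin.snocEquiv (fun _ : Fin (n + 1) => Bool)).sum_comp, Fintype.sum_prod_type]
  rw [Finset.sum_comm]
  apply Finset.sum_congr rfl
  intro w _
  rw [Finset.sum_eq_single (x n)]
  · have e : (Fin.snocEquiv (fun _ : Fin (n + 1) => Bool)) (x n, w)
        = Fin.snoc (α := fun _ => Bool) w (x n) := rfl
    rw [e, spl_snoc]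
    have h1 : lft a (hd (n + 1) x) (Fin.snoc (α := fun _ => Bool) w (x n)) = a (hd n x) w := by
      unfold lft
      rw [if_pos]
      · rw [init_hd, Fin.init_snoc]
      · rw [Fin.snoc_last]; rfl
    rw [h1]
  · intro b _ hb
    have e : (Fin.snocEquiv (fun _ : Fin (n + 1) => Bool)) (b, w)
        = Fin.snoc (α := fun _ => Bool) w b := rfl
    rw [e]
    have h1 : lft a (hd (n + 1) x) (Fin.snoc (α := fun _ => Bool) w b) = 0 := by
      unfold lft
      rw [if_neg]
      rw [Fin.snoc_last]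
      exact fun h => hb h.symm
    rw [h1, zero_mul]
  · simp

/-- `a` raises the number of ones by at least `m`. -/
def D (m : ℕ) {n : ℕ} (a : Matrix (Wd n) (Wd n) k) : Prop :=
  ∀ u v, cnt u < cnt v + m → a u v = 0

theorem D.add {m n : ℕ} {a b : Matrix (Wd n) (Wd n) k} (ha : D m a) (hb : D m b) :
    D m (a + b) := fun u v h => by
  rw [Matrix.add_apply, ha u v h, hb u v h, add_zero]

theorem D.smul {m n : ℕ} (c : k) {a : Matrix (Wd n) (Wd n) k} (ha : D m a) :
    D m (c • a) := fun u v h => by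
  rw [Matrix.smul_apply, ha u v h, smul_zero]

theorem D.zero {m n : ℕ} : D m (0 : Matrix (Wd n) (Wd n) k) := fun _ _ _ => rfl

theorem D.one {n : ℕ} : D 0 (1 : Matrix (Wd n) (Wd n) k) := fun u v h => by
  rw [Matrix.one_apply_ne]
  rintro rfl
  simp at h

theorem D.mul {m l n : ℕ} {a b : Matrix (Wd n) (Wd n) k} (ha : D m a) (hb : D l b) :
    D (m + l) (a * b) := fun u v h => by
  rw [Matrix.mul_apply]
  apply Finset.sum_eq_zero
  intro w _
  by_cases h1 : cnt u < cnt w + m
  · rw [ha u w h1, zero_mul]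
  · rw [hb w v (by omega), mul_zero]

theorem D.mono {m l n : ℕ} (hml : l ≤ m) {a : Matrix (Wd n) (Wd n) k} (ha : D m a) : D l a :=
  fun u v h => ha u v (by omega)

theorem D.eq_zero {m n : ℕ} (h : n < m) {a : Matrix (Wd n) (Wd n) k} (ha : D m a) : a = 0 := by
  ext u v
  have := cnt_le u
  exact ha u v (by omega)

theorem D.lft {m n : ℕ} {a : Matrix (Wd n) (Wd n) k} (ha : D m a) : D m (lft a) := by
  intro u v h
  unfold WN.lft
  split_ifs with hl
  · apply ha
    have hu := cnt_snoc (Fin.init (α := fun _ => Bool) u) (u (Fin.last n))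
    have hv := cnt_snoc (Fin.init (α := fun _ => Bool) v) (v (Fin.last n))
    rw [Fin.snoc_init_self] at hu hv
    rw [hu, hv, hl] at h
    omega
  · rfl

theorem D.single {m n : ℕ} {u v : Wd n} (h : cnt v + m ≤ cnt u) (c : k) :
    D m (Matrix.single u v c) := by
  intro u' v' h'
  rw [Matrix.single_apply_of_ne]
  rintro ⟨rfl, rfl⟩
  omega

theorem lift_to {m n N : ℕ} (h : n ≤ N) {a : Matrix (Wd n) (Wd n) k} (ha : D m a) :
    ∃ b : Matrix (Wd N) (Wd N) k, D m b ∧ phi k N b = phi k n a := by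
  induction N, h using Nat.le_induction with
  | base => exact ⟨a, ha, rfl⟩
  | succ N _ ih =>
    obtain ⟨b, hb, hab⟩ := ih
    exact ⟨lft b, hb.lft, by rw [phi_lft, hab]⟩

/-- membership in the filtration -/
def Mem (m : ℕ) (T : Module.End k (V k)) : Prop :=
  ∃ n, ∃ a : Matrix (Wd n) (Wd n) k, D m a ∧ phi k n a = T

theorem Mem.common {m m' : ℕ} {T T' : Module.End k (V k)} (h : Mem m T) (h' : Mem m' T') :
    ∃ N, ∃ a b : Matrix (Wd N) (Wd N) k, D m a ∧ D m' b ∧ phi k N a = T ∧ phi k N b = T' := by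
  obtain ⟨n, a, ha, rfl⟩ := h
  obtain ⟨n', a', ha', rfl⟩ := h'
  obtain ⟨b, hb, hab⟩ := lift_to (le_max_left n n') ha
  obtain ⟨b', hb', hab'⟩ := lift_to (le_max_right n n') ha'
  exact ⟨max n n', b, b', hb, hb', hab, hab'⟩

theorem Mem.add {m : ℕ} {T T' : Module.End k (V k)} (h : Mem m T) (h' : Mem m T') :
    Mem m (T + T') := by
  obtain ⟨N, a, b, ha, hb, rfl, rfl⟩ := h.common h'
  exact ⟨N, a + b, ha.add hb, phi_add N a b⟩

theorem Mem.mul {m m' : ℕ} {T T' : Module.End k (V k)} (h : Mem m T) (h' : Mem m' T') :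
    Mem (m + m') (T * T') := by
  obtain ⟨N, a, b, ha, hb, rfl, rfl⟩ := h.common h'
  exact ⟨N, a * b, ha.mul hb, phi_mul N a b⟩

theorem Mem.smul {m : ℕ} (c : k) {T : Module.End k (V k)} (h : Mem m T) : Mem m (c • T) := by
  obtain ⟨n, a, ha, rfl⟩ := h
  exact ⟨n, c • a, ha.smul c, phi_smul n c a⟩

theorem Mem.zero {m : ℕ} : Mem m (0 : Module.End k (V k)) := ⟨0, 0, D.zero, phi_zero 0⟩

variable (k) in
/-- The algebra. -/
def A : Subalgebra k (Module.End k (V k)) where
  carrier := {T | Mem 0 T}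
  mul_mem' h h' := by simpa using h.mul h'
  one_mem' := ⟨0, 1, D.one, phi_one 0⟩
  add_mem' h h' := h.add h'
  zero_mem' := Mem.zero
  algebraMap_mem' c := by
    refine ⟨0, c • 1, D.one.smul c, ?_⟩
    rw [phi_smul, phi_one]
    rfl

theorem mem_A {T : Module.End k (V k)} : T ∈ A k ↔ Mem 0 T := Iff.rfl

theorem Mem.mono {m l : ℕ} (hml : l ≤ m) {T : Module.End k (V k)} (h : Mem m T) : Mem l T := by
  obtain ⟨n, a, ha, hT⟩ := h
  exact ⟨n, a, ha.mono hml, hT⟩

variable (k) in
/-- The radical. -/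
def J : Submodule k (A k) where
  carrier := {T | Mem 1 (T : Module.End k (V k))}
  add_mem' h h' := Mem.add h h'
  zero_mem' := Mem.zero
  smul_mem' c _ h := Mem.smul c h

theorem mem_J {T : A k} : T ∈ J k ↔ Mem 1 (T : Module.End k (V k)) := Iff.rfl

/-- an element of the algebra at level `n` -/
def el (n : ℕ) (a : Matrix (Wd n) (Wd n) k) (ha : D 0 a) : A k := ⟨phi k n a, ⟨n, a, ha, rfl⟩⟩

/-- matrix unit -/
def E {n : ℕ} (u v : Wd n) (h : cnt v ≤ cnt u) : A k :=
  el n (Matrix.single u v 1) (D.single (by omega) 1)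

theorem E_coe {n : ℕ} (u v : Wd n) (h : cnt v ≤ cnt u) :
    ((E u v h : A k) : Module.End k (V k)) = phi k n (Matrix.single u v 1) := rfl

/-- A submodule of the algebra spanned by matrix units in a hereditary way. -/
def Good (I : Submodule k (A k)) : Prop :=
  (∀ (n : ℕ) (a : Matrix (Wd n) (Wd n) k) (ha : D 0 a), el n a ha ∈ I →
    ∀ (u v : Wd n) (h : cnt v ≤ cnt u), a u v ≠ 0 → E u v h ∈ I) ∧
  (∀ (n : ℕ) (u v u' v' : Wd n) (h : cnt v ≤ cnt u) (h1 : cnt u ≤ cnt u') (h2 : cnt v' ≤ cnt v),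
    E u v h ∈ I → E u' v' (h2.trans (h.trans h1)) ∈ I)

theorem Good.next {I : Submodule k (A k)} (hI : Good I) {n : ℕ} {u v : Wd n} (h : cnt v ≤ cnt u)
    (hE : (E u v h : A k) ∈ I) (b : Bool)
    (h' : cnt (Fin.snoc (α := fun _ => Bool) v b : Wd (n + 1))
      ≤ cnt (Fin.snoc (α := fun _ => Bool) u b : Wd (n + 1))) :
    (E (Fin.snoc (α := fun _ => Bool) u b : Wd (n + 1))
      (Fin.snoc (α := fun _ => Bool) v b : Wd (n + 1)) h' : A k) ∈ I := by
  have hd : D 0 (lft (Matrix.single u v (1 : k))) := (D.single (by omega) 1).lft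
  have h1 : el (n + 1) (lft (Matrix.single u v (1 : k))) hd ∈ I := by
    have : el (n + 1) (lft (Matrix.single u v (1 : k))) hd = E u v h := by
      apply Subtype.ext
      exact phi_lft n _
    rwa [this]
  apply hI.1 (n + 1) _ hd h1
  unfold lft
  rw [Fin.snoc_last, Fin.snoc_last, if_pos rfl, Fin.init_snoc, Fin.init_snoc,
    Matrix.single_apply_same]
  exact one_ne_zero

/-- The position predicate. -/
def Q (I : Submodule k (A k)) (p : ℕ × ℕ × ℕ) : Prop :=
  ∀ n, n = p.1 + p.2.1 + p.2.2 → ∀ (u v : Wd n) (h : cnt v ≤ cnt u), cnt u = p.1 + p.2.2 →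
    cnt v = p.1 → E u v h ∈ I

theorem Good.Q_of_mem {I : Submodule k (A k)} (hI : Good I) {n : ℕ} {u v : Wd n}
    (h : cnt v ≤ cnt u) (hE : (E u v h : A k) ∈ I) :
    Q I (cnt v, n - cnt u, cnt u - cnt v) := by
  intro m hm u' v' h' hu' hv'
  simp only at hm hu' hv'
  have hn := cnt_le u
  have : m = n := by omega
  subst this
  have h1 : cnt u ≤ cnt u' := by omega
  have h2 : cnt v' ≤ cnt v := by omega
  exact hI.2 m u v u' v' h h1 h2 hE

theorem Good.Q_up {I : Submodule k (A k)} (hI : Good I) {a b d a' b' d' : ℕ}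
    (hQ : Q I (a, b, d)) (ha : a ≤ a') (hb : b ≤ b') (hd : d ≤ d') : Q I (a', b', d') := by
  have key : ∀ (a b d : ℕ) (c : Bool) (a' b' d' : ℕ), Q I (a, b, d) →
      a' + b' + d' = a + b + d + 1 → a + d + c.toNat ≤ a' + d' → a' ≤ a + c.toNat →
      Q I (a', b', d') := by
    intro a b d c a' b' d' hQ h0 h1 h2 m hm u v h hu hv
    simp only at hm hu hv
    obtain ⟨u0, hu0⟩ := exists_cnt (a + b + d) (a + d) (by omega)
    obtain ⟨v0, hv0⟩ := exists_cnt (a + b + d) a (by omega)
    have hE := hQ (a + b + d) rfl u0 v0 (by omega) hu0 hv0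
    have hm' : m = a + b + d + 1 := by omega
    subst hm'
    have e1 := cnt_snoc u0 c
    have e2 := cnt_snoc v0 c
    have hn := hI.next (by omega) hE c (by omega)
    exact hI.2 _ _ _ u v _ (by omega) (by omega) hn
  have k1 : ∀ j, Q I (a + j, b, d) := by
    intro j
    induction j with
    | zero => exact hQ
    | succ j ih => exact key _ _ _ true _ _ _ ih (by omega) (by simp; try omega) (by simp; try omega)
  have k2 : ∀ i j, Q I (a + i, b + j, d) := by
    intro i j
    induction j with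
    | zero => exact k1 i
    | succ j ih => exact key _ _ _ false _ _ _ ih (by omega) (by simp) (by simp)
  have k3 : ∀ i j l, Q I (a + i, b + j, d + l) := by
    intro i j l
    induction l with
    | zero => exact k2 i j
    | succ l ih => exact key _ _ _ false _ _ _ ih (by omega) (by simp; try omega) (by simp)
  obtain ⟨i, rfl⟩ := Nat.exists_eq_add_of_le ha
  obtain ⟨j, rfl⟩ := Nat.exists_eq_add_of_le hb
  obtain ⟨l, rfl⟩ := Nat.exists_eq_add_of_le hd
  exact k3 i j l

theorem Q_mono {I I' : Submodule k (A k)} (h : I ≤ I') {p : ℕ × ℕ × ℕ} (hQ : Q I p) : Q I' p :=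
  fun n hn u v h1 h2 h3 => h (hQ n hn u v h1 h2 h3)

/-- expansion in matrix units -/
theorem phi_expand (n : ℕ) (a : Matrix (Wd n) (Wd n) k) :
    phi k n a = ∑ u, ∑ v, a u v • phi k n (Matrix.single u v 1) := by
  have h0 : ∀ s : Finset (Wd n), ∀ f : Wd n → Matrix (Wd n) (Wd n) k,
      phi k n (∑ i ∈ s, f i) = ∑ i ∈ s, phi k n (f i) := by
    intro s f
    classical
    induction s using Finset.induction_on with
    | empty => simp [phi_zero]
    | insert i s hi ih => rw [Finset.sum_insert hi, Finset.sum_insert hi, phi_add, ih]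
  have h1 : a = ∑ u, ∑ v, a u v • Matrix.single u v (1 : k) := by
    conv_lhs => rw [Matrix.matrix_eq_sum_single a]
    simp [Matrix.smul_single]
  conv_lhs => rw [h1]
  rw [h0]
  apply Finset.sum_congr rfl
  intro u _
  rw [h0]
  exact Finset.sum_congr rfl fun v _ => phi_smul n _ _

/-- An element lies in `I` as soon as all its matrix units do. -/
theorem mem_of_units (I : Submodule k (A k)) {n : ℕ} (a : Matrix (Wd n) (Wd n) k) (ha : D 0 a)
    (h : ∀ (u v : Wd n) (h : cnt v ≤ cnt u), a u v ≠ 0 → E u v h ∈ I) : el n a ha ∈ I := by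
  have h1 : phi k n a ∈ I.map (A k).val.toLinearMap := by
    rw [phi_expand]
    apply Submodule.sum_mem
    intro u _
    apply Submodule.sum_mem
    intro v _
    by_cases h0 : a u v = 0
    · rw [h0, zero_smul]; exact Submodule.zero_mem _
    · have hle : cnt v ≤ cnt u := by
        by_contra hcon
        exact h0 (ha u v (by omega))
      apply Submodule.smul_mem
      exact ⟨E u v hle, h u v hle h0, rfl⟩
  obtain ⟨y, hy, hye⟩ := h1
  have : y = el n a ha := Subtype.ext hye
  rwa [← this]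

theorem Good.le_of_Q {I I' : Submodule k (A k)} (hI : Good I')
    (h : ∀ p, Q I' p → Q I p) : I' ≤ I := by
  rintro ⟨T, n, a, ha, rfl⟩ hx
  change el n a ha ∈ I' at hx
  change el n a ha ∈ I
  apply mem_of_units
  intro u v huv h0
  have h1 := hI.1 n a ha hx u v huv h0
  have h2 := h _ (hI.Q_of_mem huv h1)
  have hn := cnt_le u
  exact h2 n (by simp only; omega) u v huv (by simp only; omega) rfl

/-- Ascending chains of good submodules stabilise. -/
theorem chain_good (f : ℕ →o Submodule k (A k)) (hf : ∀ n, Good (f n)) :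
    ∃ n, ∀ m, n ≤ m → f n = f m := by
  by_contra hcon
  push Not at hcon
  choose g hg hne using hcon
  -- the subsequence
  let s : ℕ → ℕ := fun i => Nat.rec 0 (fun _ x => g x) i
  have hs : ∀ i, s (i + 1) = g (s i) := fun i => rfl
  have hsm : Monotone s := monotone_nat_of_le_succ fun i => hg (s i)
  have hp : ∀ i, ∃ p, Q (f (s (i + 1))) p ∧ ¬ Q (f (s i)) p := by
    intro i
    by_contra hcon
    push Not at hcon
    have h1 : f (s (i + 1)) ≤ f (s i) := (hf _).le_of_Q hcon
    have h2 : f (s i) ≤ f (s (i + 1)) := f.monotone (hg (s i))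
    exact hne (s i) (le_antisymm h2 h1)
  choose p hp1 hp2 using hp
  have hwqo : ∃ i j, i < j ∧ p i ≤ p j := by
    have h := wellQuasiOrdered_le (α := ℕ × ℕ × ℕ) p
    exact h
  obtain ⟨i, j, hij, hle⟩ := hwqo
  apply hp2 j
  have h1 : Q (f (s (i + 1))) (p j) := by
    have := hp1 i
    exact (hf _).Q_up this hle.1 hle.2.1 hle.2.2
  exact Q_mono (f.monotone (hsm hij)) h1

end Pool.Agent.Helper72.WN
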