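import Mathlib

set_option autoImplicit false

namespace Pool.Agent.Helper72.WN

universe u v

/-- There is an `n ≥ 1` such that every product of `n` elements of `S`, for every arrangement of
parentheses (that is, every nonassociative word `w` of length `n` with letters in `S`), is zero. -/
def IsNilpotentSet {A : Type v} [Mul A] [Zero A] (S : Set A) : Prop :=
  ∃ n : ℕ, 0 < n ∧
    ∀ w : FreeMagma S, w.length = n → FreeMagma.lift (Subtype.val : S → A) w = 0

section

variable (Φ : Type u) {A : Type v} [CommRing Φ] [NonUnitalNonAssocRing A] [Module Φ A]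

/-- Two-sided ideals of a nonassociative `Φ`-algebra. -/
def IsTwoSided (I : Submodule Φ A) : Prop := ∀ a : A, ∀ x ∈ I, a * x ∈ I ∧ x * a ∈ I

/-- Every finitely generated subalgebra of `I` is nilpotent. -/
def IsLocallyNilpotent [IsScalarTower Φ A A] [SMulCommClass Φ A A] (I : Submodule Φ A) : Prop :=
  ∀ F : Finset A, (F : Set A) ⊆ I → IsNilpotentSet (NonUnitalAlgebra.adjoin Φ (F : Set A) : Set A)

/-- `L` is the locally nilpotent radical: the largest locally nilpotent two-sided ideal. -/
def IsLocallyNilpotentRadical [IsScalarTower Φ A A] [SMulCommClass Φ A A]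
    (L : Submodule Φ A) : Prop :=
  (IsTwoSided Φ L ∧ IsLocallyNilpotent Φ L) ∧
    ∀ I : Submodule Φ A, IsTwoSided Φ I → IsLocallyNilpotent Φ I → I ≤ L

variable (A)

/-- The ascending chain condition on two-sided ideals. -/
def IsWeaklyNoetherian : Prop :=
  ∀ f : ℕ →o Submodule Φ A, (∀ n, IsTwoSided Φ (f n)) → ∃ n, ∀ m, n ≤ m → f n = f m

/-- `A` is a weakly Noetherian algebra whose locally nilpotent radical is not nilpotent. -/
def IsBad [IsScalarTower Φ A A] [SMulCommClass Φ A A] : Prop :=
  IsWeaklyNoetherian Φ A ∧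
    ∃ L : Submodule Φ A, IsLocallyNilpotentRadical Φ L ∧ ¬ IsNilpotentSet (L : Set A)

end

end Pool.Agent.Helper72.WN
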