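import Mathlib
import Pool.Agent.Helper72.WNBase
import Pool.Agent.Helper72.WNDefs

set_option autoImplicit false

namespace Pool.Agent.Helper72.WN

universe u v

section generic

variable {k : Type u} [Field k] {R : Type v} [NonUnitalNonAssocRing R] [Module k R]
  (θ : R ≃ₗ[k] A k)

/-- the elements at level `N` raising by `m` -/
def Lv (m N : ℕ) (x : R) : Prop :=
  ∃ a : Matrix (Wd N) (Wd N) k, D m a ∧ ((θ x : A k) : Module.End k (V k)) = phi k N a

/-- compatibility of the product with the filtration -/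
def HMul' : Prop := ∀ (m l N : ℕ) (x y : R), Lv θ m N x → Lv θ l N y → Lv θ (m + l) N (x * y)

/-- ideals are good -/
def HGood : Prop := ∀ I : Submodule k R, IsTwoSided k I → Good (I.map θ.toLinearMap)

/-- products of matrix units -/
def HUnit : Prop := ∀ (N : ℕ) (u v w : Wd N) (h1 : cnt u ≤ cnt v) (h2 : cnt v ≤ cnt w),
  ((cnt u < cnt v ∧ cnt v < cnt w) ∨ (u = v ∧ v = w)) →
  ∃ c : k, c ≠ 0 ∧ θ (θ.symm (E w v h2) * θ.symm (E v u h1)) = c • E w u (h1.trans h2)

theorem Lv.up {m N N' : ℕ} (h : N ≤ N') {x : R} (hx : Lv θ m N x) : Lv θ m N' x := by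
  obtain ⟨a, ha, hxa⟩ := hx
  obtain ⟨b, hb, hab⟩ := lift_to h ha
  exact ⟨b, hb, hxa.trans hab.symm⟩

theorem Lv_of_mem {x : R} (hx : θ x ∈ J k) : ∃ N, Lv θ 1 N x := by
  obtain ⟨N, a, ha, h⟩ := hx
  exact ⟨N, a, ha, h.symm⟩

theorem Lv_zero (x : R) : ∃ N, Lv θ 0 N x := by
  obtain ⟨N, a, ha, h⟩ := (θ x).2
  exact ⟨N, a, ha, h.symm⟩

theorem mem_of_Lv {N m : ℕ} {x : R} (hm : 1 ≤ m) (hx : Lv θ m N x) : θ x ∈ J k := by
  obtain ⟨a, ha, h⟩ := hx
  exact ⟨N, a, ha.mono hm, h.symm⟩

theorem generic_weaklyNoetherian (hG : HGood θ) : IsWeaklyNoetherian k R := by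
  intro f hf
  obtain ⟨n, hn⟩ := chain_good
    ⟨fun n => (f n).map θ.toLinearMap, fun i j hij => Submodule.map_mono (f.monotone hij)⟩
    (fun n => hG (f n) (hf n))
  refine ⟨n, fun m hm => ?_⟩
  have := hn m hm
  exact Submodule.map_injective_of_injective θ.injective this

theorem generic_twoSided (hM : HMul' θ) : IsTwoSided k ((J k).comap θ.toLinearMap) := by
  intro a x hx
  rw [Submodule.mem_comap] at hx
  obtain ⟨N, hN⟩ := Lv_of_mem θ hx
  obtain ⟨N', hN'⟩ := Lv_zero θ a
  have h1 := hN.up θ (le_max_left N N')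
  have h2 := hN'.up θ (le_max_right N N')
  constructor
  · rw [Submodule.mem_comap]
    exact mem_of_Lv θ (by omega) (hM _ _ _ _ _ h2 h1)
  · rw [Submodule.mem_comap]
    exact mem_of_Lv θ (by omega) (hM _ _ _ _ _ h1 h2)

theorem value_Lv (hM : HMul' θ) {N : ℕ} {T : Set R} (hT : ∀ x ∈ T, Lv θ 1 N x)
    (w : FreeMagma T) : Lv θ w.length N (FreeMagma.lift (Subtype.val : T → R) w) := by
  induction w using FreeMagma.recOnMul with
  | ih1 x =>
    rw [FreeMagma.lift_of]
    exact hT x x.2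
  | ih2 x y hx hy =>
    rw [map_mul]
    exact hM _ _ _ _ _ hx hy

theorem nilp_of_Lv (hM : HMul' θ) {N : ℕ} {T : Set R} (hT : ∀ x ∈ T, Lv θ 1 N x) :
    IsNilpotentSet T := by
  refine ⟨N + 1, Nat.succ_pos _, fun w hw => ?_⟩
  obtain ⟨a, ha, h⟩ := value_Lv θ hM hT w
  have ha0 : a = 0 := ha.eq_zero (by omega)
  rw [ha0, phi_zero] at h
  have h1 : θ (FreeMagma.lift (Subtype.val : T → R) w) = 0 := Subtype.ext h
  exact (LinearEquiv.map_eq_zero_iff θ).mp h1

theorem finset_level (F : Finset R) (hF : ∀ x ∈ F, θ x ∈ J k) : ∃ N, ∀ x ∈ F, Lv θ 1 N x := by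
  classical
  induction F using Finset.induction_on with
  | empty => exact ⟨0, by simp⟩
  | insert y s _ ih =>
    obtain ⟨N, hN⟩ := ih (fun x hx => hF x (Finset.mem_insert_of_mem hx))
    obtain ⟨N', hN'⟩ := Lv_of_mem θ (hF y (Finset.mem_insert_self y s))
    refine ⟨max N N', fun x hx => ?_⟩
    rw [Finset.mem_insert] at hx
    rcases hx with rfl | hx
    · exact hN'.up θ (le_max_right _ _)
    · exact (hN x hx).up θ (le_max_left _ _)

/-- The level subalgebra. -/
def lvSub (hM : HMul' θ) (N : ℕ) : NonUnitalSubalgebra k R where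
  carrier := {x | Lv θ 1 N x}
  add_mem' := by
    rintro x y ⟨a, ha, hx⟩ ⟨b, hb, hy⟩
    exact ⟨a + b, ha.add hb, by rw [map_add, phi_add, ← hx, ← hy]; rfl⟩
  zero_mem' := ⟨0, D.zero, by rw [map_zero, phi_zero]; rfl⟩
  mul_mem' := by
    intro x y hx hy
    obtain ⟨c, hc, h⟩ := hM 1 1 N x y hx hy
    exact ⟨c, hc.mono (by omega), h⟩
  smul_mem' := by
    rintro c x ⟨a, ha, hx⟩
    exact ⟨c • a, ha.smul c, by rw [map_smul, phi_smul, ← hx]; rfl⟩

variable [IsScalarTower k R R] [SMulCommClass k R R]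

theorem generic_locNil (hM : HMul' θ) : IsLocallyNilpotent k ((J k).comap θ.toLinearMap) := by
  intro F hF
  obtain ⟨N, hN⟩ := finset_level θ F (fun x hx => hF hx)
  apply nilp_of_Lv θ hM (N := N)
  intro x hx
  have h1 : NonUnitalAlgebra.adjoin k (F : Set R) ≤ lvSub θ hM N :=
    NonUnitalAlgebra.adjoin_le (fun y hy => hN y hy)
  exact h1 hx

omit [IsScalarTower k R R] [SMulCommClass k R R] in
theorem power_word (hU : HUnit θ) [SMulCommClass k R R] [IsScalarTower k R R] {N : ℕ} (u : Wd N)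
    {T : Set R} (hT : θ.symm (E u u le_rfl) ∈ T) (m : ℕ) :
    ∃ w : FreeMagma T, w.length = m + 1 ∧ ∃ c : k, c ≠ 0 ∧
      FreeMagma.lift (Subtype.val : T → R) w = c • θ.symm (E u u le_rfl) := by
  induction m with
  | zero => exact ⟨FreeMagma.of ⟨_, hT⟩, rfl, 1, one_ne_zero, by rw [FreeMagma.lift_of, one_smul]⟩
  | succ m ih =>
    obtain ⟨w, hw, c, hc, hval⟩ := ih
    obtain ⟨c', hc', h⟩ := hU N u u u le_rfl le_rfl (Or.inr ⟨rfl, rfl⟩)
    refine ⟨FreeMagma.of ⟨_, hT⟩ * w, ?_, c * c', mul_ne_zero hc hc', ?_⟩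
    · change 1 + w.length = m + 1 + 1
      omega
    · rw [map_mul, FreeMagma.lift_of, hval, mul_smul_comm]
      have h2 := congrArg θ.symm h
      rw [LinearEquiv.symm_apply_apply, map_smul] at h2
      rw [h2, smul_smul]

theorem generic_max (hG : HGood θ) (hU : HUnit θ) (I : Submodule k R)
    (hI : IsTwoSided k I) (hL : IsLocallyNilpotent k I) : I ≤ (J k).comap θ.toLinearMap := by
  intro x hx
  rw [Submodule.mem_comap]
  by_contra hcon
  obtain ⟨n, a, ha, hxa⟩ := (θ x).2
  have hGI := hG I hI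
  have hel : el n a ha ∈ I.map θ.toLinearMap := ⟨x, hx, Subtype.ext hxa.symm⟩
  have hex : ∃ u v : Wd n, cnt u < cnt v + 1 ∧ a u v ≠ 0 := by
    by_contra hno
    push Not at hno
    apply hcon
    exact ⟨n, a, fun u v h => hno u v h, hxa⟩
  obtain ⟨u, v, huv, hne⟩ := hex
  have hle : cnt v ≤ cnt u := by
    by_contra h
    exact hne (ha u v (by omega))
  have h1 := hGI.1 n a ha hel u v hle hne
  have h2 := hGI.2 n u v u u hle le_rfl (by omega) h1
  obtain ⟨e, heI, he⟩ := h2
  have he' : e = θ.symm (E u u le_rfl) := by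
    rw [LinearEquiv.eq_symm_apply]
    exact he
  obtain ⟨m, hm, hnil⟩ := hL {e} (by simpa using heI)
  have hmem : θ.symm (E u u le_rfl) ∈
      (NonUnitalAlgebra.adjoin k ((({e} : Finset R)) : Set R) : Set R) := by
    rw [← he']
    exact NonUnitalAlgebra.subset_adjoin k (by simp)
  obtain ⟨w, hw, c, hc, hval⟩ := power_word θ hU u hmem (m - 1)
  have h3 := hnil w (by omega)
  rw [hval, smul_eq_zero] at h3
  rcases h3 with h3 | h3
  · exact hc h3
  · rw [LinearEquiv.map_eq_zero_iff] at h3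
    have h4 : phi k n (Matrix.single u u 1) = phi k n 0 := by
      rw [phi_zero]; exact congrArg Subtype.val h3
    have h5 := congrFun (congrFun (phi_injective n h4) u) u
    simp at h5

theorem generic_not_nil (hU : HUnit θ) :
    ¬ IsNilpotentSet (((J k).comap θ.toLinearMap : Submodule k R) : Set R) := by
  rintro ⟨n, hn, hnil⟩
  have hex : ∀ i : ℕ, ∃ u : Wd n, i ≤ n → cnt u = i := by
    intro i
    by_cases h : i ≤ n
    · obtain ⟨u, hu⟩ := exists_cnt n i h
      exact ⟨u, fun _ => hu⟩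
    · exact ⟨fun _ => false, fun h' => absurd h' h⟩
  choose u hu using hex
  have key : ∀ m, m < n → ∀ h : cnt (u 0) ≤ cnt (u (m + 1)),
      ∃ w : FreeMagma (((J k).comap θ.toLinearMap : Submodule k R) : Set R),
      w.length = m + 1 ∧ ∃ c : k, c ≠ 0 ∧
        FreeMagma.lift (Subtype.val : (((J k).comap θ.toLinearMap : Submodule k R) : Set R) → R) w
          = c • θ.symm (E (u (m + 1)) (u 0) h) := by
    intro m
    induction m with
    | zero =>
      intro hm h
      have h0 := hu 0 (by omega)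
      have h1 := hu 1 (by omega)
      have hmem : θ.symm (E (u 1) (u 0) h) ∈
          (((J k).comap θ.toLinearMap : Submodule k R) : Set R) := by
        rw [SetLike.mem_coe, Submodule.mem_comap]
        change θ (θ.symm _) ∈ J k
        rw [LinearEquiv.apply_symm_apply]
        exact ⟨n, _, D.single (by omega) 1, rfl⟩
      exact ⟨FreeMagma.of ⟨_, hmem⟩, rfl, 1, one_ne_zero, by rw [FreeMagma.lift_of, one_smul]⟩
    | succ m ih =>
      intro hm h
      have h0 := hu 0 (by omega)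
      have h1 := hu (m + 1) (by omega)
      have h2 := hu (m + 1 + 1) (by omega)
      obtain ⟨w, hw, c, hc, hval⟩ := ih (by omega) (by omega)
      have hle : cnt (u (m + 1)) ≤ cnt (u (m + 1 + 1)) := by omega
      have hmem : θ.symm (E (u (m + 1 + 1)) (u (m + 1)) hle) ∈
          (((J k).comap θ.toLinearMap : Submodule k R) : Set R) := by
        rw [SetLike.mem_coe, Submodule.mem_comap]
        change θ (θ.symm _) ∈ J k
        rw [LinearEquiv.apply_symm_apply]
        exact ⟨n, _, D.single (by omega) 1, rfl⟩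
      obtain ⟨c', hc', h3⟩ := hU n (u 0) (u (m + 1)) (u (m + 1 + 1)) (by omega) hle
        (Or.inl ⟨by omega, by omega⟩)
      refine ⟨FreeMagma.of ⟨_, hmem⟩ * w, ?_, c * c', mul_ne_zero hc hc', ?_⟩
      · change 1 + w.length = m + 1 + 1
        omega
      · rw [map_mul, FreeMagma.lift_of, hval, mul_smul_comm]
        have h4 := congrArg θ.symm h3
        rw [LinearEquiv.symm_apply_apply, map_smul] at h4
        rw [h4, smul_smul]
  have h0 := hu 0 (by omega)
  have h1 := hu (n - 1 + 1) (by omega)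
  obtain ⟨w, hw, c, hc, hval⟩ := key (n - 1) (by omega) (by omega)
  have h3 := hnil w (by omega)
  rw [hval, smul_eq_zero] at h3
  rcases h3 with h3 | h3
  · exact hc h3
  · rw [LinearEquiv.map_eq_zero_iff] at h3
    have h4 : phi k n (Matrix.single (u (n - 1 + 1)) (u 0) 1) = phi k n 0 := by
      rw [phi_zero]; exact congrArg Subtype.val h3
    have h5 := congrFun (congrFun (phi_injective n h4) (u (n - 1 + 1))) (u 0)
    simp at h5

theorem generic_bad (hM : HMul' θ) (hG : HGood θ) (hU : HUnit θ) : IsBad k R :=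
  ⟨generic_weaklyNoetherian θ hG, (J k).comap θ.toLinearMap,
    ⟨⟨generic_twoSided θ hM, generic_locNil θ hM⟩, generic_max θ hG hU⟩, generic_not_nil θ hU⟩

end generic

end Pool.Agent.Helper72.WN
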