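import Mathlib
import Pool.Agent.Helper72.WNGeneric

set_option autoImplicit false

namespace Pool.Agent.Helper72.WN

universe u v

variable {k : Type u} [Field k]

/-- `phi` as a linear map -/
def phiL (n : ℕ) : Matrix (Wd n) (Wd n) k →ₗ[k] Module.End k (V k) where
  toFun := phi k n
  map_add' := phi_add n
  map_smul' := phi_smul n

/-- the matrices of level `n` lying in `I` -/
def Ms (I : Submodule k (A k)) (n : ℕ) : Submodule k (Matrix (Wd n) (Wd n) k) :=
  (I.map (A k).val.toLinearMap).comap (phiL n)

theorem mem_Ms_iff {I : Submodule k (A k)} {n : ℕ} {a : Matrix (Wd n) (Wd n) k} :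
    a ∈ Ms I n ↔ ∃ x ∈ I, (x : Module.End k (V k)) = phi k n a := Iff.rfl

theorem mem_Ms {I : Submodule k (A k)} {n : ℕ} {a : Matrix (Wd n) (Wd n) k} (ha : D 0 a) :
    a ∈ Ms I n ↔ el n a ha ∈ I := by
  rw [mem_Ms_iff]
  constructor
  · rintro ⟨x, hx, h⟩
    have : x = el n a ha := Subtype.ext h
    rwa [← this]
  · intro h
    exact ⟨_, h, rfl⟩

theorem good_of_Ms {I : Submodule k (A k)}
    (h1 : ∀ (n : ℕ) (a : Matrix (Wd n) (Wd n) k), D 0 a → a ∈ Ms I n → ∀ u v,
      cnt v ≤ cnt u → a u v ≠ 0 → Matrix.single u v 1 ∈ Ms I n)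
    (h2 : ∀ (n : ℕ) (u v u' v' : Wd n), cnt v ≤ cnt u → cnt u ≤ cnt u' → cnt v' ≤ cnt v →
      Matrix.single u v 1 ∈ Ms I n → Matrix.single u' v' 1 ∈ Ms I n) : Good I := by
  constructor
  · intro n a ha hI u v h hne
    exact (mem_Ms _).mp (h1 n a ha ((mem_Ms ha).mpr hI) u v h hne)
  · intro n u v u' v' h h3 h4 hE
    exact (mem_Ms _).mp (h2 n u v u' v' h h3 h4 ((mem_Ms _).mpr hE))

section assoc

/-- the identity equivalence -/
def θA : A k ≃ₗ[k] A k := LinearEquiv.refl k (A k)

theorem assoc_mul : HMul' (R := A k) (θA (k := k)) := by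
  rintro m l N x y ⟨a, ha, hx⟩ ⟨b, hb, hy⟩
  refine ⟨a * b, ha.mul hb, ?_⟩
  rw [phi_mul, ← hx, ← hy]
  rfl

theorem assoc_good : HGood (R := A k) (θA (k := k)) := by
  intro I hI
  have hmap : I.map (θA (k := k)).toLinearMap = I := Submodule.map_id I
  rw [hmap]
  have hl : ∀ (n : ℕ) (b a : Matrix (Wd n) (Wd n) k), D 0 b → a ∈ Ms I n → b * a ∈ Ms I n := by
    intro n b a hb ha
    obtain ⟨x, hx, h⟩ := mem_Ms_iff.mp ha
    refine mem_Ms_iff.mpr ⟨el n b hb * x, (hI _ x hx).1, ?_⟩
    rw [phi_mul, ← h]
    rfl
  have hr : ∀ (n : ℕ) (b a : Matrix (Wd n) (Wd n) k), D 0 b → a ∈ Ms I n → a * b ∈ Ms I n := by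
    intro n b a hb ha
    obtain ⟨x, hx, h⟩ := mem_Ms_iff.mp ha
    refine mem_Ms_iff.mpr ⟨x * el n b hb, (hI _ x hx).2, ?_⟩
    rw [phi_mul, ← h]
    rfl
  apply good_of_Ms
  · intro n a _ hI' u v _ hne
    have h1 : Matrix.single u u (1 : k) * a * Matrix.single v v (1 : k) ∈ Ms I n :=
      hr n _ _ (D.single (by omega) 1) (hl n _ _ (D.single (by omega) 1) hI')
    rw [Matrix.single_mul_mul_single, one_mul, mul_one] at h1
    have h2 := (Ms I n).smul_mem (a u v)⁻¹ h1
    rwa [Matrix.smul_single, smul_eq_mul, inv_mul_cancel₀ hne] at h2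
  · intro n u v u' v' h h3 h4 hE
    have h1 : Matrix.single u' u (1 : k) * Matrix.single u v (1 : k) * Matrix.single v v' (1 : k)
        ∈ Ms I n :=
      hr n _ _ (D.single (by omega) 1) (hl n _ _ (D.single (by omega) 1) hE)
    rwa [Matrix.single_mul_mul_single, one_mul, mul_one, Matrix.single_apply_same] at h1

theorem assoc_unit : HUnit (R := A k) (θA (k := k)) := by
  intro N u v w h1 h2 _
  refine ⟨1, one_ne_zero, ?_⟩
  rw [one_smul]
  apply Subtype.ext
  change phi k N (Matrix.single w v 1) * phi k N (Matrix.single v u 1)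
    = phi k N (Matrix.single w u 1)
  rw [← phi_mul, Matrix.single_mul_single_same, one_mul]

theorem assoc_bad : IsBad k (A k) := generic_bad (R := A k) θA assoc_mul assoc_good assoc_unit

end assoc

section jordan

variable (k) in
/-- The algebra with the Jordan product `ab + ba`. -/
def JA : Type u := A k

instance : AddCommGroup (JA k) := inferInstanceAs (AddCommGroup (A k))

instance : Module k (JA k) := inferInstanceAs (Module k (A k))

/-- the identity equivalence -/
def θJ : JA k ≃ₗ[k] A k := LinearEquiv.refl k (A k)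

instance : Mul (JA k) := ⟨fun a b => θJ.symm (θJ a * θJ b + θJ b * θJ a)⟩

theorem JA_mul (a b : JA k) : θJ (a * b) = θJ a * θJ b + θJ b * θJ a := rfl

instance : NonUnitalNonAssocRing (JA k) :=
  { (inferInstance : AddCommGroup (JA k)), (inferInstance : Mul (JA k)) with
    left_distrib := by
      intro a b c
      apply θJ.injective
      rw [map_add, JA_mul, JA_mul, JA_mul, map_add]
      noncomm_ring
    right_distrib := by
      intro a b c
      apply θJ.injective
      rw [map_add, JA_mul, JA_mul, JA_mul, map_add]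
      noncomm_ring
    zero_mul := by
      intro a
      apply θJ.injective
      rw [JA_mul, map_zero, zero_mul, mul_zero, add_zero]
    mul_zero := by
      intro a
      apply θJ.injective
      rw [JA_mul, map_zero, zero_mul, mul_zero, add_zero] }

instance : IsScalarTower k (JA k) (JA k) := ⟨by
  intro c a b
  apply θJ.injective
  simp only [smul_eq_mul]
  rw [JA_mul, map_smul, map_smul, JA_mul, smul_mul_assoc, mul_smul_comm, smul_add]⟩

instance : SMulCommClass k (JA k) (JA k) := ⟨by
  intro c a b
  apply θJ.injective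
  simp only [smul_eq_mul]
  rw [map_smul, JA_mul, JA_mul, map_smul, smul_mul_assoc, mul_smul_comm, smul_add]⟩

theorem JA_comm (a b : JA k) : a * b = b * a := by
  apply θJ.injective
  rw [JA_mul, JA_mul, add_comm]

theorem JA_jordan (a b : JA k) : ((a * a) * b) * a = (a * a) * (b * a) := by
  apply θJ.injective
  simp only [JA_mul]
  noncomm_ring

theorem jordan_mul : HMul' (θJ (k := k)) := by
  rintro m l N x y ⟨a, ha, hx⟩ ⟨b, hb, hy⟩
  refine ⟨a * b + b * a, (ha.mul hb).add ?_, ?_⟩
  · rw [Nat.add_comm]; exact hb.mul ha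
  · rw [phi_add, phi_mul, phi_mul, ← hx, ← hy, JA_mul]
    rfl

theorem jordan_good (h2k : (2 : k) ≠ 0) : HGood (θJ (k := k)) := by
  intro I' hI'
  set I : Submodule k (A k) := I'.map (θJ (k := k)).toLinearMap with hIdef
  have hJ : ∀ (n : ℕ) (b a : Matrix (Wd n) (Wd n) k), D 0 b → a ∈ Ms I n →
      b * a + a * b ∈ Ms I n := by
    intro n b a hb ha
    obtain ⟨x, ⟨x', hx', hxx⟩, h⟩ := mem_Ms_iff.mp ha
    refine mem_Ms_iff.mpr ⟨θJ (θJ.symm (el n b hb) * x'), ⟨_, (hI' _ x' hx').1, rfl⟩, ?_⟩
    rw [JA_mul, LinearEquiv.apply_symm_apply, phi_add, phi_mul, phi_mul, ← h, ← hxx]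
    rfl
  have hG1 : ∀ (n : ℕ) (a : Matrix (Wd n) (Wd n) k), D 0 a → a ∈ Ms I n → ∀ u v,
      cnt v ≤ cnt u → a u v ≠ 0 → Matrix.single u v 1 ∈ Ms I n := by
    intro n a hD ha u v huv hne
    have hss : ∀ w : Wd n, D 0 (Matrix.single w w (1 : k)) := fun w => D.single (by omega) 1
    -- extraction of a matrix unit from a scalar multiple
    have hsc : ∀ (w w' : Wd n) (c : k), c ≠ 0 → Matrix.single w w' c ∈ Ms I n →
        Matrix.single w w' 1 ∈ Ms I n := by
      intro w w' c hc h
      have h2 := (Ms I n).smul_mem c⁻¹ h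
      rwa [Matrix.smul_single, smul_eq_mul, inv_mul_cancel₀ hc] at h2
    -- diagonal extraction
    have hdiag : ∀ (b : Matrix (Wd n) (Wd n) k), b ∈ Ms I n → ∀ w, b w w ≠ 0 →
        Matrix.single w w 1 ∈ Ms I n := by
      intro b hb w hw
      set e : Matrix (Wd n) (Wd n) k := Matrix.single w w 1 with he
      have hee : e * e = e := by rw [he, Matrix.single_mul_single_same, one_mul]
      have h1 := hJ n e b (hss w) hb
      have h2 := hJ n e _ (hss w) h1
      have h3 := (Ms I n).sub_mem h2 h1
      have h4 : e * (e * b + b * e) + (e * b + b * e) * e - (e * b + b * e)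
          = (2 : k) • (e * b * e) := by
        have : e * (e * b + b * e) + (e * b + b * e) * e
            = (e * e) * b + e * b * e + (e * b * e + b * (e * e)) := by noncomm_ring
        rw [this, hee, two_smul]
        noncomm_ring
      rw [h4, he, Matrix.single_mul_mul_single, one_mul, mul_one, Matrix.smul_single,
        smul_eq_mul] at h3
      exact hsc w w _ (mul_ne_zero h2k hw) h3
    by_cases hEq : u = v
    · subst hEq
      exact hdiag a ha u hne
    · have hfe : Matrix.single v v (1 : k) * Matrix.single u u (1 : k) = 0 :=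
        Matrix.single_mul_single_of_ne _ _ _ _ (Ne.symm hEq) _
      have hef : Matrix.single u u (1 : k) * Matrix.single v v (1 : k) = 0 :=
        Matrix.single_mul_single_of_ne _ _ _ _ hEq _
      have h1 := hJ n _ _ (hss v) ha
      have h2 := hJ n _ _ (hss u) h1
      have h3 : Matrix.single u u (1 : k) * (Matrix.single v v 1 * a + a * Matrix.single v v 1) +
          (Matrix.single v v 1 * a + a * Matrix.single v v 1) * Matrix.single u u 1
          = Matrix.single u v (a u v) + Matrix.single v u (a v u) := by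
        have e1 : Matrix.single u u (1 : k) * (Matrix.single v v 1 * a + a * Matrix.single v v 1) +
          (Matrix.single v v 1 * a + a * Matrix.single v v 1) * Matrix.single u u 1
          = (Matrix.single u u (1 : k) * Matrix.single v v (1 : k)) * a
            + Matrix.single u u (1 : k) * a * Matrix.single v v 1
            + (Matrix.single v v (1 : k) * a * Matrix.single u u 1
              + a * (Matrix.single v v (1 : k) * Matrix.single u u (1 : k))) := by
          noncomm_ring
        rw [e1, hef, hfe, Matrix.single_mul_mul_single, Matrix.single_mul_mul_single]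
        simp
      rw [h3] at h2
      rcases Nat.lt_or_ge (cnt v) (cnt u) with hlt | hge
      · have : a v u = 0 := hD v u (by omega)
        rw [this, Matrix.single_zero, add_zero] at h2
        exact hsc u v _ hne h2
      · have hD' : D 0 (Matrix.single v u (1 : k)) := D.single (by omega) 1
        have h4 := hJ n _ _ hD' h2
        have h5 : Matrix.single v u (1 : k) * (Matrix.single u v (a u v) + Matrix.single v u (a v u))
            + (Matrix.single u v (a u v) + Matrix.single v u (a v u)) * Matrix.single v u (1 : k)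
            = Matrix.single v v (a u v) + Matrix.single u u (a u v) := by
          rw [mul_add, add_mul, Matrix.single_mul_single_same, Matrix.single_mul_single_same,
            Matrix.single_mul_single_of_ne _ _ _ _ hEq, Matrix.single_mul_single_of_ne _ _ _ _ hEq]
          simp
        rw [h5] at h4
        have h6 : Matrix.single u u (1 : k) ∈ Ms I n := by
          apply hdiag _ h4 u
          rw [Matrix.add_apply, Matrix.single_apply_of_ne, Matrix.single_apply_same, zero_add]
          · exact hne
          · rintro ⟨h, _⟩; exact hEq h.symm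
        have h7 := hJ n _ _ (D.single (m := 0) (u := u) (v := v) (by omega) (1 : k)) h6
        rwa [Matrix.single_mul_single_of_ne _ _ _ _ (Ne.symm hEq), zero_add,
          Matrix.single_mul_single_same, one_mul] at h7
  apply good_of_Ms hG1
  intro n u v u' v' h h3 h4 hE
  -- left move
  have hleft : Matrix.single u' v (1 : k) ∈ Ms I n := by
    have hd : D 0 (Matrix.single u' u (1 : k)) := D.single (by omega) 1
    have hd' : D 0 (Matrix.single u v (1 : k)) := D.single (by omega) 1
    have h5 := hJ n _ _ hd hE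
    apply hG1 n _ ((hd.mul hd').add (hd'.mul hd)) h5 u' v (by omega)
    rw [Matrix.add_apply, Matrix.single_mul_single_same, Matrix.single_apply_same, one_mul]
    by_cases hv : v = u'
    · subst hv
      rw [Matrix.single_mul_single_same, Matrix.single_apply]
      split_ifs
      · rw [one_mul, one_add_one_eq_two]; exact h2k
      · rw [add_zero]; exact one_ne_zero
    · rw [Matrix.single_mul_single_of_ne _ _ _ _ hv, Matrix.zero_apply, add_zero]
      exact one_ne_zero
  have hd : D 0 (Matrix.single v v' (1 : k)) := D.single (by omega) 1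
  have hd' : D 0 (Matrix.single u' v (1 : k)) := D.single (by omega) 1
  have h5 := hJ n _ _ hd hleft
  apply hG1 n _ ((hd.mul hd').add (hd'.mul hd)) h5 u' v' (by omega)
  have e1 : Matrix.single u' v (1 : k) * Matrix.single v v' (1 : k) = Matrix.single u' v' 1 := by
    rw [Matrix.single_mul_single_same, one_mul]
  rw [Matrix.add_apply, e1, Matrix.single_apply_same]
  by_cases hv : v' = u'
  · subst hv
    rw [Matrix.single_mul_single_same, Matrix.single_apply]
    split_ifs
    · rw [one_mul, one_add_one_eq_two]; exact h2k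
    · rw [zero_add]; exact one_ne_zero
  · rw [Matrix.single_mul_single_of_ne _ _ _ _ hv, Matrix.zero_apply, zero_add]
    exact one_ne_zero

theorem jordan_unit (h2k : (2 : k) ≠ 0) : HUnit (θJ (k := k)) := by
  intro N u v w h1 h2 hc
  have hmul : ∀ (x y : Wd N) (x' y' : Wd N) (h : cnt y ≤ cnt x) (h' : cnt y' ≤ cnt x'),
      ((θJ (θJ.symm (E x y h) * θJ.symm (E x' y' h')) : A k) : Module.End k (V k))
      = phi k N (Matrix.single x y 1 * Matrix.single x' y' 1
        + Matrix.single x' y' 1 * Matrix.single x y 1) := by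
    intro x y x' y' h h'
    rw [JA_mul, LinearEquiv.apply_symm_apply, LinearEquiv.apply_symm_apply, phi_add, phi_mul,
      phi_mul]
    rfl
  rcases hc with ⟨h3, h4⟩ | ⟨rfl, rfl⟩
  · refine ⟨1, one_ne_zero, ?_⟩
    rw [one_smul]
    apply Subtype.ext
    rw [hmul, Matrix.single_mul_single_same, one_mul, Matrix.single_mul_single_of_ne, add_zero]
    · rfl
    · rintro rfl; omega
  · refine ⟨2, h2k, ?_⟩
    apply Subtype.ext
    rw [hmul, Matrix.single_mul_single_same, one_mul, phi_add, ← two_smul k]
    rfl

theorem jordan_bad (h2k : (2 : k) ≠ 0) : IsBad k (JA k) :=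
  generic_bad θJ jordan_mul (jordan_good h2k) (jordan_unit h2k)

end jordan

end Pool.Agent.Helper72.WN
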