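import Mathlib
import Pool.Agent.Helper72.WNAssoc

set_option autoImplicit false

namespace Pool.Agent.Helper72.WN

universe u v

section abstract

variable {k : Type u} [Field k] {R : Type v} [NonUnitalNonAssocRing R] [Module k R]

theorem locNil_abstract [IsScalarTower k R R] [SMulCommClass k R R]
    (P : ℕ → ℕ → R → Prop)
    (hadd : ∀ m N x y, P m N x → P m N y → P m N (x + y))
    (hzero : ∀ m N, P m N 0)
    (hsmul : ∀ m N (c : k) x, P m N x → P m N (c • x))
    (hup : ∀ m N N' x, N ≤ N' → P m N x → P m N' x)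
    (hanti : ∀ m m' N x, m' ≤ m → P m N x → P m' N x)
    (hmul : ∀ m m' N x y, P m N x → P m' N y → P (m + m') N (x * y))
    (hkill : ∀ m N x, N < m → P m N x → x = 0)
    (L : Submodule k R) (hL : ∀ x ∈ L, ∃ N, P 1 N x) : IsLocallyNilpotent k L := by
  intro F hF
  have hfin : ∃ N, ∀ x ∈ F, P 1 N x := by
    classical
    induction F using Finset.induction_on with
    | empty => exact ⟨0, by simp⟩
    | insert y s _ ih =>
      obtain ⟨N, hN⟩ := ih (fun x hx => hF (Finset.mem_coe.mpr (Finset.mem_insert_of_mem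
        (Finset.mem_coe.mp hx))))
      obtain ⟨N', hN'⟩ := hL y (hF (Finset.mem_coe.mpr (Finset.mem_insert_self y s)))
      refine ⟨max N N', fun x hx => ?_⟩
      rw [Finset.mem_insert] at hx
      rcases hx with rfl | hx
      · exact hup _ _ _ _ (le_max_right _ _) hN'
      · exact hup _ _ _ _ (le_max_left _ _) (hN x hx)
  obtain ⟨N, hN⟩ := hfin
  let S : NonUnitalSubalgebra k R :=
    { carrier := {x | P 1 N x}
      add_mem' := fun {x y} hx hy => hadd 1 N x y hx hy
      zero_mem' := hzero 1 N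
      mul_mem' := fun {x y} hx hy => hanti 2 1 N _ (by omega) (hmul 1 1 N x y hx hy)
      smul_mem' := fun c x hx => hsmul 1 N c x hx }
  have h1 : NonUnitalAlgebra.adjoin k (F : Set R) ≤ S :=
    NonUnitalAlgebra.adjoin_le (fun y hy => hN y hy)
  have key : ∀ w : FreeMagma (NonUnitalAlgebra.adjoin k (F : Set R) : Set R),
      P w.length N (FreeMagma.lift
        (Subtype.val : (NonUnitalAlgebra.adjoin k (F : Set R) : Set R) → R) w) := by
    intro w
    induction w using FreeMagma.recOnMul with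
    | ih1 x =>
      rw [FreeMagma.lift_of]
      exact h1 x.2
    | ih2 x y hx hy =>
      rw [map_mul]
      exact hmul _ _ _ _ _ hx hy
  refine ⟨N + 1, Nat.succ_pos _, fun w hw => ?_⟩
  exact hkill _ N _ (by omega) (key w)

end abstract

variable {k : Type u} [Field k]

theorem good_of_twoSided {I : Submodule k (A k)} (hI : IsTwoSided (A := A k) k I) : Good I := by
  have h := assoc_good I hI
  have hmap : I.map (θA (k := k)).toLinearMap = I := Submodule.map_id I
  rwa [hmap] at h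

variable (k) in
/-- three copies of `A` with a cross product -/
def B3 : Type u := A k × A k × A k

instance : AddCommGroup (B3 k) := inferInstanceAs (AddCommGroup (A k × A k × A k))

instance : Module k (B3 k) := inferInstanceAs (Module k (A k × A k × A k))

/-- constructor -/
def mk3 (a b c : A k) : B3 k := (a, b, c)

instance : Mul (B3 k) := ⟨fun x y => mk3 (x.2.1 * y.2.2 + y.2.1 * x.2.2)
  (x.2.2 * y.1 + y.2.2 * x.1) (x.1 * y.2.1 + y.1 * x.2.1)⟩

theorem B3_mul (x y : B3 k) : x * y = mk3 (x.2.1 * y.2.2 + y.2.1 * x.2.2)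
  (x.2.2 * y.1 + y.2.2 * x.1) (x.1 * y.2.1 + y.1 * x.2.1) := rfl

theorem mk3_add (a b c a' b' c' : A k) : mk3 a b c + mk3 a' b' c' = mk3 (a + a') (b + b') (c + c') :=
  rfl

theorem mk3_sub (a b c a' b' c' : A k) : mk3 a b c - mk3 a' b' c' = mk3 (a - a') (b - b') (c - c') :=
  rfl

theorem mk3_smul (r : k) (a b c : A k) : r • mk3 a b c = mk3 (r • a) (r • b) (r • c) := rfl

theorem mk3_mul (a b c a' b' c' : A k) : mk3 a b c * mk3 a' b' c'
    = mk3 (b * c' + b' * c) (c * a' + c' * a) (a * b' + a' * b) := rfl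

theorem mk3_zero : (0 : B3 k) = mk3 0 0 0 := rfl

theorem mk3_eta (x : B3 k) : x = mk3 x.1 x.2.1 x.2.2 := rfl

theorem mk3_congr {a b c a' b' c' : A k} (h1 : a = a') (h2 : b = b') (h3 : c = c') :
    mk3 a b c = mk3 a' b' c' := by rw [h1, h2, h3]

instance : NonUnitalNonAssocRing (B3 k) :=
  { (inferInstance : AddCommGroup (B3 k)), (inferInstance : Mul (B3 k)) with
    left_distrib := by
      intro x y z
      rw [mk3_eta x, mk3_eta y, mk3_eta z]
      simp only [mk3_add, mk3_mul]
      apply mk3_congr <;> noncomm_ring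
    right_distrib := by
      intro x y z
      rw [mk3_eta x, mk3_eta y, mk3_eta z]
      simp only [mk3_add, mk3_mul]
      apply mk3_congr <;> noncomm_ring
    zero_mul := by
      intro x
      rw [mk3_eta x, mk3_zero, mk3_mul]
      apply mk3_congr <;> simp
    mul_zero := by
      intro x
      rw [mk3_eta x, mk3_zero, mk3_mul]
      apply mk3_congr <;> simp }

instance : IsScalarTower k (B3 k) (B3 k) := ⟨by
  intro r x y
  rw [mk3_eta x, mk3_eta y]
  simp only [smul_eq_mul, mk3_smul, mk3_mul, smul_mul_assoc, mul_smul_comm, smul_add]⟩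

instance : SMulCommClass k (B3 k) (B3 k) := ⟨by
  intro r x y
  rw [mk3_eta x, mk3_eta y]
  simp only [smul_eq_mul, mk3_smul, mk3_mul, smul_mul_assoc, mul_smul_comm, smul_add]⟩

theorem B3_comm (x y : B3 k) : x * y = y * x := by
  rw [mk3_eta x, mk3_eta y, mk3_mul, mk3_mul]
  apply mk3_congr <;> rw [add_comm]

theorem A_char_two (h2 : (2 : k) = 0) (a : A k) : a + a = 0 := by
  rw [← two_smul k a, h2, zero_smul]

theorem B3_sq (h2 : (2 : k) = 0) (x : B3 k) : x * x = 0 := by
  rw [mk3_eta x, mk3_mul, mk3_zero]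
  apply mk3_congr <;> exact A_char_two h2 _

theorem B3_jordan (h2 : (2 : k) = 0) (x y : B3 k) : ((x * x) * y) * x = (x * x) * (y * x) := by
  rw [B3_sq h2, zero_mul, zero_mul, zero_mul]

/-- the embeddings of the three coordinates -/
def io (i : Fin 3) (a : A k) : B3 k :=
  mk3 (if i = 0 then a else 0) (if i = 1 then a else 0) (if i = 2 then a else 0)

theorem io_mul (i : Fin 3) (x y : A k) : io i x * io (i + 1) y = io (i + 2) (x * y) := by
  unfold io
  rw [mk3_mul]
  fin_cases i <;> apply mk3_congr <;> simp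

theorem io_eq_zero {i : Fin 3} {a : A k} (h : io i a = 0) : a = 0 := by
  have h1 := congrArg Prod.fst (show ((io i a : B3 k) : A k × A k × A k) = (0, 0, 0) from h)
  have h2 := congrArg (fun z : A k × A k × A k => z.2.1)
    (show ((io i a : B3 k) : A k × A k × A k) = (0, 0, 0) from h)
  have h3 := congrArg (fun z : A k × A k × A k => z.2.2)
    (show ((io i a : B3 k) : A k × A k × A k) = (0, 0, 0) from h)
  fin_cases i
  · simpa [io, mk3] using h1
  · simpa [io, mk3] using h2
  · simpa [io, mk3] using h3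

section ideal

variable {K : Submodule k (B3 k)}

theorem K_mul_right (hK : IsTwoSided k K) {x : B3 k} (hx : x ∈ K) (y : B3 k) : x * y ∈ K :=
  (hK y x hx).2

/-- the ideal of coordinates -/
def coord (K : Submodule k (B3 k)) : Submodule k (A k) where
  carrier := {b | mk3 0 b 0 ∈ K}
  add_mem' := by
    intro a b ha hb
    have := K.add_mem ha hb
    rw [mk3_add] at this
    simpa using this
  zero_mem' := K.zero_mem
  smul_mem' := by
    intro c b hb
    have := K.smul_mem c hb
    rw [mk3_smul] at this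
    simpa using this

theorem mem_coord {b : A k} : b ∈ coord K ↔ mk3 0 b 0 ∈ K := Iff.rfl

theorem mid_mem (hK : IsTwoSided k K) {a b c : A k} (h : mk3 a b c ∈ K) :
    a ∈ coord K ∧ b ∈ coord K ∧ c ∈ coord K := by
  have h1 := K_mul_right hK h (mk3 0 1 0)
  have h2 := K_mul_right hK h1 (mk3 0 1 0)
  rw [mk3_mul] at h1
  rw [mk3_mul, mk3_mul] at h2
  have h2' : mk3 a 0 c ∈ K := by
    have e : ∀ x : B3 k, x ∈ K → x = mk3 a 0 c → mk3 a 0 c ∈ K := fun x hx hxe => hxe ▸ hx
    apply e _ h2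
    apply mk3_congr <;> simp
  have hb : mk3 0 b 0 ∈ K := by
    have e : mk3 0 b 0 + mk3 a 0 c = mk3 a b c := by
      rw [mk3_add]
      apply mk3_congr <;> simp
    rw [← e] at h
    exact (K.add_mem_iff_left h2').mp h
  have hc : mk3 0 c 0 ∈ K := by
    have := K_mul_right hK h2' (mk3 1 0 0)
    rw [mk3_mul] at this
    simpa using this
  have ha : mk3 0 a 0 ∈ K := by
    have := K_mul_right hK h2' (mk3 0 0 1)
    rw [mk3_mul] at this
    simpa using this
  exact ⟨ha, hb, hc⟩

theorem io_mem (hK : IsTwoSided k K) {b : A k} (h : b ∈ coord K) (i : Fin 3) : io i b ∈ K := by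
  have h1 : mk3 b 0 0 ∈ K := by
    have := K_mul_right hK h (mk3 0 0 1)
    rw [mk3_mul] at this
    simpa using this
  have h2 : mk3 0 0 b ∈ K := by
    have := K_mul_right hK h (mk3 1 0 0)
    rw [mk3_mul] at this
    simpa using this
  fin_cases i
  · simpa [io] using h1
  · simpa [io] using mem_coord.mp h
  · simpa [io] using h2

theorem mem_K_iff (hK : IsTwoSided k K) (a b c : A k) :
    mk3 a b c ∈ K ↔ a ∈ coord K ∧ b ∈ coord K ∧ c ∈ coord K := by
  constructor
  · exact mid_mem hK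
  · rintro ⟨ha, hb, hc⟩
    have h1 := K.add_mem (K.add_mem (io_mem hK ha 0) (io_mem hK hb 1)) (io_mem hK hc 2)
    unfold io at h1
    rw [mk3_add, mk3_add] at h1
    simpa using h1

theorem coord_twoSided (hK : IsTwoSided k K) : IsTwoSided (A := A k) k (coord K) := by
  intro r b hb
  constructor
  · have h := K_mul_right hK (mem_coord.mp hb) (mk3 r 0 0)
    rw [mk3_mul] at h
    have := (mid_mem hK h).2.2
    simpa using this
  · have h := K_mul_right hK (mem_coord.mp hb) (mk3 0 0 r)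
    rw [mk3_mul] at h
    have := (mid_mem hK h).1
    simpa using this

end ideal

theorem B3_weaklyNoetherian : IsWeaklyNoetherian k (B3 k) := by
  intro f hf
  obtain ⟨n, hn⟩ := chain_good
    ⟨fun n => coord (f n), fun i j hij b hb => f.monotone hij hb⟩
    (fun n => good_of_twoSided (coord_twoSided (hf n)))
  refine ⟨n, fun m hm => ?_⟩
  have h : coord (f n) = coord (f m) := hn m hm
  ext x
  rw [mk3_eta x, mem_K_iff (hf n), mem_K_iff (hf m), h]

variable (k) in
/-- the radical of `B3` -/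
def J3 : Submodule k (B3 k) := (J k).prod ((J k).prod (J k))

theorem mem_J3 (a b c : A k) : mk3 a b c ∈ J3 k ↔ a ∈ J k ∧ b ∈ J k ∧ c ∈ J k := Iff.rfl

theorem J_twoSided : IsTwoSided (A := A k) k (J k) := generic_twoSided (R := A k) θA assoc_mul

theorem J3_twoSided : IsTwoSided k (J3 k) := by
  intro x y hy
  rw [mk3_eta x, mk3_eta y] at *
  rw [mem_J3] at hy
  obtain ⟨h1, h2, h3⟩ := hy
  have hl : ∀ r a : A k, a ∈ J k → r * a ∈ J k := fun r a ha => (J_twoSided r a ha).1
  have hr : ∀ r a : A k, a ∈ J k → a * r ∈ J k := fun r a ha => (J_twoSided r a ha).2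
  constructor
  · rw [mk3_mul, mem_J3]
    exact ⟨(J k).add_mem (hl _ _ h3) (hr _ _ h2), (J k).add_mem (hl _ _ h1) (hr _ _ h3),
      (J k).add_mem (hl _ _ h2) (hr _ _ h1)⟩
  · rw [mk3_mul, mem_J3]
    exact ⟨(J k).add_mem (hr _ _ h2) (hl _ _ h3), (J k).add_mem (hr _ _ h3) (hl _ _ h1),
      (J k).add_mem (hr _ _ h1) (hl _ _ h2)⟩

/-- level predicate on `A` -/
def LA (m N : ℕ) (x : A k) : Prop := Lv (R := A k) θA m N x

theorem LA_add {m N : ℕ} {x y : A k} (hx : LA m N x) (hy : LA m N y) : LA m N (x + y) := by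
  obtain ⟨a, ha, hx⟩ := hx
  obtain ⟨b, hb, hy⟩ := hy
  exact ⟨a + b, ha.add hb, by rw [map_add, phi_add, ← hx, ← hy]; rfl⟩

theorem LA_zero {m N : ℕ} : LA m N (0 : A k) := ⟨0, D.zero, by rw [map_zero, phi_zero]; rfl⟩

theorem LA_smul {m N : ℕ} (c : k) {x : A k} (hx : LA m N x) : LA m N (c • x) := by
  obtain ⟨a, ha, hx⟩ := hx
  exact ⟨c • a, ha.smul c, by rw [map_smul, phi_smul, ← hx]; rfl⟩

theorem LA_mul {m l N : ℕ} {x y : A k} (hx : LA m N x) (hy : LA l N y) : LA (m + l) N (x * y) :=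
  assoc_mul m l N x y hx hy

theorem LA_mul' {m l N : ℕ} {x y : A k} (hx : LA m N x) (hy : LA l N y) : LA (l + m) N (x * y) := by
  rw [Nat.add_comm]; exact LA_mul hx hy

theorem LA_mono {m m' N : ℕ} {x : A k} (h : m' ≤ m) (hx : LA m N x) : LA m' N x := by
  obtain ⟨a, ha, hx⟩ := hx
  exact ⟨a, ha.mono h, hx⟩

theorem LA_kill {m N : ℕ} {x : A k} (h : N < m) (hx : LA m N x) : x = 0 := by
  obtain ⟨a, ha, hx⟩ := hx
  rw [ha.eq_zero h, phi_zero] at hx
  exact Subtype.ext hx

theorem J3_locNil : IsLocallyNilpotent k (J3 k) := by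
  apply locNil_abstract (fun m N x => LA m N x.1 ∧ LA m N x.2.1 ∧ LA m N x.2.2)
  · intro m N x y hx hy
    exact ⟨LA_add hx.1 hy.1, LA_add hx.2.1 hy.2.1, LA_add hx.2.2 hy.2.2⟩
  · intro m N
    exact ⟨LA_zero, LA_zero, LA_zero⟩
  · intro m N c x hx
    exact ⟨LA_smul c hx.1, LA_smul c hx.2.1, LA_smul c hx.2.2⟩
  · intro m N N' x h hx
    exact ⟨hx.1.up _ h, hx.2.1.up _ h, hx.2.2.up _ h⟩
  · intro m m' N x h hx
    exact ⟨LA_mono h hx.1, LA_mono h hx.2.1, LA_mono h hx.2.2⟩
  · intro m m' N x y hx hy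
    exact ⟨LA_add (LA_mul hx.2.1 hy.2.2) (LA_mul' hy.2.1 hx.2.2),
      LA_add (LA_mul hx.2.2 hy.1) (LA_mul' hy.2.2 hx.1),
      LA_add (LA_mul hx.1 hy.2.1) (LA_mul' hy.1 hx.2.1)⟩
  · intro m N x h hx
    rw [mk3_eta x, LA_kill h hx.1, LA_kill h hx.2.1, LA_kill h hx.2.2]
    rfl
  · intro x hx
    obtain ⟨h1, h2, h3⟩ := (mem_J3 x.1 x.2.1 x.2.2).mp hx
    obtain ⟨N1, hN1⟩ := Lv_of_mem (R := A k) θA h1
    obtain ⟨N2, hN2⟩ := Lv_of_mem (R := A k) θA h2
    obtain ⟨N3, hN3⟩ := Lv_of_mem (R := A k) θA h3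
    refine ⟨max N1 (max N2 N3), hN1.up _ (le_max_left _ _), hN2.up _ ?_, hN3.up _ ?_⟩
    · exact (le_max_left _ _).trans (le_max_right _ _)
    · exact (le_max_right _ _).trans (le_max_right _ _)

theorem E_mul {N : ℕ} {u v w : Wd N} (h1 : cnt u ≤ cnt v) (h2 : cnt v ≤ cnt w) :
    (E w v h2 * E v u h1 : A k) = E w u (h1.trans h2) := by
  apply Subtype.ext
  change phi k N (Matrix.single w v 1) * phi k N (Matrix.single v u 1)
    = phi k N (Matrix.single w u 1)
  rw [← phi_mul, Matrix.single_mul_single_same, one_mul]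

theorem E_ne_zero {N : ℕ} {u v : Wd N} (h : cnt v ≤ cnt u) : (E u v h : A k) ≠ 0 := by
  intro h3
  have h4 : phi k N (Matrix.single u v 1) = phi k N 0 := by
    rw [phi_zero]; exact congrArg Subtype.val h3
  have h5 := congrFun (congrFun (phi_injective N h4) u) v
  simp at h5

/-- A two-sided ideal of `A` not inside `J` contains an idempotent matrix unit. -/
theorem exists_idem {I : Submodule k (A k)} (hI : IsTwoSided (A := A k) k I) (h : ¬ I ≤ J k) :
    ∃ (n : ℕ) (u : Wd n), (E u u le_rfl : A k) ∈ I := by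
  rw [SetLike.not_le_iff_exists] at h
  obtain ⟨x, hx, hcon⟩ := h
  have hGI := good_of_twoSided hI
  obtain ⟨n, a, ha, hxa⟩ := x.2
  have hel : el n a ha ∈ I := by
    have : el n a ha = x := Subtype.ext hxa
    rwa [this]
  have hex : ∃ u v : Wd n, cnt u < cnt v + 1 ∧ a u v ≠ 0 := by
    by_contra hno
    push Not at hno
    exact hcon ⟨n, a, fun u v h => hno u v h, hxa⟩
  obtain ⟨u, v, huv, hne⟩ := hex
  have hle : cnt v ≤ cnt u := by
    by_contra h
    exact hne (ha u v (by omega))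
  have h1 := hGI.1 n a ha hel u v hle hne
  exact ⟨n, u, hGI.2 n u v u u hle le_rfl (by omega) h1⟩

theorem J3_max (K : Submodule k (B3 k)) (hK : IsTwoSided k K) (hL : IsLocallyNilpotent k K) :
    K ≤ J3 k := by
  have hle : coord K ≤ J k := by
    by_contra hcon
    obtain ⟨n, u, hu⟩ := exists_idem (coord_twoSided hK) hcon
    set e : A k := E u u le_rfl with he
    have hee : e * e = e := E_mul le_rfl le_rfl
    have he0 : e ≠ 0 := E_ne_zero le_rfl
    classical
    set F : Finset (B3 k) := Finset.image (fun i : Fin 3 => io i e) Finset.univ with hF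
    have hFK : (F : Set (B3 k)) ⊆ K := by
      intro x hx
      rw [hF, Finset.coe_image] at hx
      obtain ⟨i, _, rfl⟩ := hx
      exact io_mem hK hu i
    obtain ⟨m, hm, hnil⟩ := hL F hFK
    have hmem : ∀ i : Fin 3, io i e ∈ (NonUnitalAlgebra.adjoin k (F : Set (B3 k)) : Set (B3 k)) := by
      intro i
      apply NonUnitalAlgebra.subset_adjoin
      rw [hF, Finset.coe_image]
      exact ⟨i, by simp, rfl⟩
    have key : ∀ j : ℕ, ∃ w : FreeMagma (NonUnitalAlgebra.adjoin k (F : Set (B3 k)) : Set (B3 k)),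
        w.length = j + 1 ∧ ∃ i : Fin 3, FreeMagma.lift (Subtype.val :
          (NonUnitalAlgebra.adjoin k (F : Set (B3 k)) : Set (B3 k)) → B3 k) w = io i e := by
      intro j
      induction j with
      | zero => exact ⟨FreeMagma.of ⟨_, hmem 0⟩, rfl, 0, by rw [FreeMagma.lift_of]⟩
      | succ j ih =>
        obtain ⟨w, hw, i, hval⟩ := ih
        refine ⟨w * FreeMagma.of ⟨_, hmem (i + 1)⟩, ?_, i + 2, ?_⟩
        · change w.length + 1 = j + 1 + 1
          omega
        · rw [map_mul, FreeMagma.lift_of, hval, io_mul, hee]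
    obtain ⟨w, hw, i, hval⟩ := key (m - 1)
    have h3 := hnil w (by omega)
    rw [hval] at h3
    exact he0 (io_eq_zero h3)
  intro x hx
  rw [mk3_eta x] at hx ⊢
  obtain ⟨h1, h2, h3⟩ := mid_mem hK hx
  exact (mem_J3 _ _ _).mpr ⟨hle h1, hle h2, hle h3⟩

theorem J3_not_nil : ¬ IsNilpotentSet ((J3 k : Submodule k (B3 k)) : Set (B3 k)) := by
  rintro ⟨n, hn, hnil⟩
  have hex : ∀ i : ℕ, ∃ u : Wd n, i ≤ n → cnt u = i := by
    intro i
    by_cases h : i ≤ n
    · obtain ⟨u, hu⟩ := exists_cnt n i h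
      exact ⟨u, fun _ => hu⟩
    · exact ⟨fun _ => false, fun h' => absurd h' h⟩
  choose u hu using hex
  have hmem : ∀ (i : Fin 3) (a : A k), a ∈ J k → io i a ∈ (J3 k : Set (B3 k)) := by
    intro i a ha
    fin_cases i
    · exact (mem_J3 _ _ _).mpr ⟨by simpa using ha, by simp, by simp⟩
    · exact (mem_J3 _ _ _).mpr ⟨by simp, by simpa using ha, by simp⟩
    · exact (mem_J3 _ _ _).mpr ⟨by simp, by simp, by simpa using ha⟩
  have hEJ : ∀ (x y : Wd n) (h : cnt y ≤ cnt x), cnt y < cnt x → (E x y h : A k) ∈ J k := by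
    intro x y h h'
    exact ⟨n, _, D.single (by omega) 1, rfl⟩
  have key : ∀ m, m < n → ∀ h : cnt (u 0) ≤ cnt (u (m + 1)),
      ∃ w : FreeMagma ((J3 k : Submodule k (B3 k)) : Set (B3 k)),
      w.length = m + 1 ∧ ∃ i : Fin 3,
        FreeMagma.lift (Subtype.val : ((J3 k : Submodule k (B3 k)) : Set (B3 k)) → B3 k) w
          = io i (E (u (m + 1)) (u 0) h) := by
    intro m
    induction m with
    | zero =>
      intro hm h
      have h0 := hu 0 (by omega)
      have h1 : cnt (u (0 + 1)) = 0 + 1 := hu (0 + 1) (by omega)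
      exact ⟨FreeMagma.of ⟨_, hmem 0 _ (hEJ (u (0 + 1)) (u 0) h (by omega))⟩, rfl, 0,
        by rw [FreeMagma.lift_of]⟩
    | succ m ih =>
      intro hm h
      have h0 := hu 0 (by omega)
      have h1 := hu (m + 1) (by omega)
      have h2 := hu (m + 1 + 1) (by omega)
      obtain ⟨w, hw, i, hval⟩ := ih (by omega) (by omega)
      have hle : cnt (u (m + 1)) ≤ cnt (u (m + 1 + 1)) := by omega
      refine ⟨FreeMagma.of ⟨_, hmem (i + 2) _ (hEJ _ _ hle (by omega))⟩ * w, ?_, i + 1, ?_⟩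
      · change 1 + w.length = m + 1 + 1
        omega
      · rw [map_mul, FreeMagma.lift_of, hval]
        have hi : i = (i + 2) + 1 := by fin_cases i <;> rfl
        have hi2 : i + 1 = (i + 2) + 2 := by fin_cases i <;> rfl
        conv_lhs => rw [hi]
        rw [hi2]
        have h5 : (i + 2 + 1 + 2 : Fin 3) = i + 2 := by fin_cases i <;> rfl
        rw [h5, io_mul, E_mul]
  have h0 := hu 0 (by omega)
  have h1 := hu (n - 1 + 1) (by omega)
  obtain ⟨w, hw, i, hval⟩ := key (n - 1) (by omega) (by omega)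
  have h3 := hnil w (by omega)
  rw [hval] at h3
  exact E_ne_zero _ (io_eq_zero h3)

theorem B3_bad : IsBad k (B3 k) :=
  ⟨B3_weaklyNoetherian, J3 k, ⟨⟨J3_twoSided, J3_locNil⟩, J3_max⟩, J3_not_nil⟩

end Pool.Agent.Helper72.WN
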