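import Mathlib
import Pool.Agent.Helper72.WNChar2

set_option autoImplicit false

namespace Pool.Agent.Helper72.WN

universe u v

section transfer

variable {Φ : Type u} {k : Type u} [CommRing Φ] [Field k] (π : Φ →+* k)
  (hπ : Function.Surjective π) {R : Type v} [NonUnitalNonAssocRing R] [Module k R]
  [Module Φ R] (hs : ∀ (c : Φ) (x : R), c • x = π c • x)

/-- submodules over `Φ` are submodules over `k` -/
def up (I : Submodule Φ R) : Submodule k R where
  carrier := I
  add_mem' := I.add_mem
  zero_mem' := I.zero_mem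
  smul_mem' := by
    intro c x hx
    obtain ⟨d, rfl⟩ := hπ c
    rw [← hs]
    exact I.smul_mem d hx

/-- submodules over `k` are submodules over `Φ` -/
def down (I : Submodule k R) : Submodule Φ R where
  carrier := I
  add_mem' := I.add_mem
  zero_mem' := I.zero_mem
  smul_mem' := by
    intro c x hx
    rw [hs]
    exact I.smul_mem (π c) hx

theorem transfer [IsScalarTower k R R] [SMulCommClass k R R]
    [IsScalarTower Φ R R] [SMulCommClass Φ R R] (hπ : Function.Surjective π)
    (hs : ∀ (c : Φ) (x : R), c • x = π c • x) (h : IsBad k R) : IsBad Φ R := by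
  obtain ⟨h1, L, ⟨⟨h2, h3⟩, h4⟩, h5⟩ := h
  -- the generated subalgebras agree
  have hadj : ∀ F : Set R, (NonUnitalAlgebra.adjoin Φ F : Set R)
      = (NonUnitalAlgebra.adjoin k F : Set R) := by
    intro F
    apply Set.Subset.antisymm
    · let S : NonUnitalSubalgebra Φ R :=
        { carrier := (NonUnitalAlgebra.adjoin k F : Set R)
          add_mem' := fun {x y} hx hy => (NonUnitalAlgebra.adjoin k F).add_mem hx hy
          zero_mem' := (NonUnitalAlgebra.adjoin k F).zero_mem
          mul_mem' := fun {x y} hx hy => (NonUnitalAlgebra.adjoin k F).mul_mem hx hy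
          smul_mem' := fun c x hx => by
            rw [hs]
            exact (NonUnitalAlgebra.adjoin k F).smul_mem (π c) hx }
      have : NonUnitalAlgebra.adjoin Φ F ≤ S :=
        NonUnitalAlgebra.adjoin_le (NonUnitalAlgebra.subset_adjoin k)
      exact this
    · let S : NonUnitalSubalgebra k R :=
        { carrier := (NonUnitalAlgebra.adjoin Φ F : Set R)
          add_mem' := fun {x y} hx hy => (NonUnitalAlgebra.adjoin Φ F).add_mem hx hy
          zero_mem' := (NonUnitalAlgebra.adjoin Φ F).zero_mem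
          mul_mem' := fun {x y} hx hy => (NonUnitalAlgebra.adjoin Φ F).mul_mem hx hy
          smul_mem' := fun c x hx => by
            obtain ⟨d, rfl⟩ := hπ c
            rw [← hs]
            exact (NonUnitalAlgebra.adjoin Φ F).smul_mem d hx }
      have : NonUnitalAlgebra.adjoin k F ≤ S :=
        NonUnitalAlgebra.adjoin_le (NonUnitalAlgebra.subset_adjoin Φ)
      exact this
  refine ⟨?_, down π hs L, ⟨⟨h2, ?_⟩, ?_⟩, h5⟩
  · intro f hf
    obtain ⟨n, hn⟩ := h1 ⟨fun n => up π hπ hs (f n), fun i j hij x hx => f.monotone hij hx⟩ hf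
    refine ⟨n, fun m hm => ?_⟩
    have := hn m hm
    ext x
    exact (SetLike.ext_iff.mp this) x
  · intro F hF
    rw [hadj]
    exact h3 F hF
  · intro I hI hL x hx
    apply h4 (up π hπ hs I) hI _ hx
    intro F hF
    rw [← hadj]
    exact hL F hF

end transfer

theorem main_of (Φ k : Type u) [CommRing Φ] [Field k] (π : Φ →+* k)
    (hπ : Function.Surjective π) :
    (∃ (A : Type u) (_ : Ring A) (_ : Algebra Φ A), IsBad Φ A) ∧
    (∃ (A : Type u) (_ : NonUnitalNonAssocRing A) (_ : Module Φ A) (_ : IsScalarTower Φ A A)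
      (_ : SMulCommClass Φ A A),
      ((∀ x y : A, (x * x) * y = x * (x * y)) ∧ (∀ x y : A, (y * x) * x = y * (x * x))) ∧
        IsBad Φ A) ∧
    (∃ (A : Type u) (_ : NonUnitalNonAssocRing A) (_ : Module Φ A) (_ : IsScalarTower Φ A A)
      (_ : SMulCommClass Φ A A),
      ((∀ x y : A, x * y = y * x) ∧ (∀ x y : A, ((x * x) * y) * x = (x * x) * (y * x))) ∧
        IsBad Φ A) := by
  have hA : ∃ (_ : Algebra Φ (A k)), IsBad Φ (A k) := by
    let i : Algebra Φ (A k) := Algebra.compHom (A k) π
    exact ⟨i, transfer π hπ (fun c x => rfl) assoc_bad⟩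
  refine ⟨?_, ?_, ?_⟩
  · obtain ⟨i, hi⟩ := hA
    exact ⟨A k, inferInstance, i, hi⟩
  · obtain ⟨i, hi⟩ := hA
    exact ⟨A k, inferInstance, inferInstance, inferInstance, inferInstance,
      ⟨fun x y => mul_assoc x x y, fun x y => mul_assoc y x x⟩, hi⟩
  · by_cases h2 : (2 : k) = 0
    · let i : Module Φ (B3 k) := Module.compHom (B3 k) π
      have i1 : IsScalarTower Φ (B3 k) (B3 k) := ⟨fun c x y => smul_assoc (π c) x y⟩
      have i2 : SMulCommClass Φ (B3 k) (B3 k) := ⟨fun c x y => smul_comm (π c) x y⟩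
      exact ⟨B3 k, inferInstance, i, i1, i2,
        ⟨B3_comm, B3_jordan h2⟩, transfer π hπ (fun c x => rfl) B3_bad⟩
    · let i : Module Φ (JA k) := Module.compHom (JA k) π
      have i1 : IsScalarTower Φ (JA k) (JA k) := ⟨fun c x y => smul_assoc (π c) x y⟩
      have i2 : SMulCommClass Φ (JA k) (JA k) := ⟨fun c x y => smul_comm (π c) x y⟩
      exact ⟨JA k, inferInstance, i, i1, i2,
        ⟨JA_comm, JA_jordan⟩, transfer π hπ (fun c x => rfl) (jordan_bad h2)⟩

theorem main (Φ : Type u) [CommRing Φ] [Nontrivial Φ] :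
    (∃ (A : Type u) (_ : Ring A) (_ : Algebra Φ A), IsBad Φ A) ∧
    (∃ (A : Type u) (_ : NonUnitalNonAssocRing A) (_ : Module Φ A) (_ : IsScalarTower Φ A A)
      (_ : SMulCommClass Φ A A),
      ((∀ x y : A, (x * x) * y = x * (x * y)) ∧ (∀ x y : A, (y * x) * x = y * (x * x))) ∧
        IsBad Φ A) ∧
    (∃ (A : Type u) (_ : NonUnitalNonAssocRing A) (_ : Module Φ A) (_ : IsScalarTower Φ A A)
      (_ : SMulCommClass Φ A A),
      ((∀ x y : A, x * y = y * x) ∧ (∀ x y : A, ((x * x) * y) * x = (x * x) * (y * x))) ∧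
        IsBad Φ A) := by
  obtain ⟨m, hm⟩ := Ideal.exists_maximal Φ
  exact @main_of Φ (Φ ⧸ m) _ (Ideal.Quotient.field m) (Ideal.Quotient.mk m)
    Ideal.Quotient.mk_surjective

end Pool.Agent.Helper72.WN
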